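import Mathlib
import Pool.Agent.TH235.PQ.Final

set_option autoImplicit false
set_option linter.unusedSectionVars false
set_option maxHeartbeats 400000

open scoped BigOperators Matrix InnerProductSpace
open Finset Pool.Agent.TH235.PP Pool.Agent.TH235.PQ

/-!
# Frobenius error of the truncated thermal expansion
-/

namespace Pool.Agent.K3h59.TE

section ring

variable {R : Type*} [NormedRing R]

lemma sum_bool_pow (M : ℕ) (e : ℝ) :
    ∑ F : Fin M → Bool, ∏ t, (if F t = true then e else 1) = (1 + e) ^ M := by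
  have h := Finset.prod_univ_sum (fun _ : Fin M => (univ : Finset Bool))
    (fun (_ : Fin M) (b : Bool) => if b = true then e else 1)
  rw [Fintype.piFinset_univ] at h
  rw [← h]
  simp [add_comm]

lemma pow_sub_bound {M : ℕ} (p ν : R → ℝ) (hp0 : ∀ a, 0 ≤ p a) (hν0 : ν 0 = 0)
    (hνadd : ∀ a b, ν (a + b) ≤ ν a + ν b) (A : ℝ) (hA : 0 ≤ A)
    (hνp : ∀ z : Fin M → R, ν (op z) ≤ A * ∏ t, p (z t)) (G E : R) (e : ℝ)
    (hG : p G ≤ 1) (hE : p E ≤ e) : ν ((G + E) ^ M - G ^ M) ≤ A * ((1 + e) ^ M - 1) := by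
  classical
  have hνsum : ∀ {ι : Type} (s : Finset ι) (f : ι → R), ν (∑ i ∈ s, f i) ≤ ∑ i ∈ s, ν (f i) := by
    intro ι s f
    induction s using Finset.induction_on with
    | empty => simp [hν0]
    | insert a s ha ih =>
      rw [Finset.sum_insert ha, Finset.sum_insert ha]
      exact (hνadd _ _).trans (add_le_add le_rfl ih)
  have he : 0 ≤ e := (hp0 E).trans hE
  have h1 : (G + E) ^ M = ∑ F : Fin M → Bool, op (fun t => if F t = true then E else G) := by
    rw [← op_sum (fun (_ : Fin M) (b : Bool) => if b = true then E else G)]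
    rw [← op_const (n := M)]
    congr 1
    funext t
    simp [add_comm]
  have h2 : op (fun t : Fin M => if (fun _ => false : Fin M → Bool) t = true then E else G) =
      G ^ M := by
    simp [op_const]
  have h3 : (G + E) ^ M - G ^ M = ∑ F ∈ univ.erase (fun _ => false : Fin M → Bool),
      op (fun t => if F t = true then E else G) := by
    rw [h1, ← Finset.add_sum_erase univ _ (mem_univ (fun _ => false : Fin M → Bool)), h2,
      add_sub_cancel_left]
  rw [h3]
  refine (hνsum _ _).trans ?_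
  have h4 : ∀ F : Fin M → Bool, ν (op (fun t => if F t = true then E else G)) ≤
      A * ∏ t, (if F t = true then e else 1) := by
    intro F
    refine (hνp _).trans (mul_le_mul_of_nonneg_left ?_ hA)
    refine Finset.prod_le_prod (fun t _ => hp0 _) fun t _ => ?_
    split_ifs
    · exact hE
    · exact hG
  refine (Finset.sum_le_sum fun F _ => h4 F).trans (le_of_eq ?_)
  rw [← Finset.mul_sum]
  congr 1
  have h5 := sum_bool_pow M e
  rw [← Finset.add_sum_erase univ _ (mem_univ (fun _ => false : Fin M → Bool))] at h5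
  have h6 : ∏ t : Fin M, (if (fun _ => false : Fin M → Bool) t = true then e else (1 : ℝ)) = 1 := by
    simp
  rw [h6] at h5
  linarith

end ring

section matrix

variable {n : Type*} [Fintype n] [DecidableEq n] [Nonempty n]

open scoped Matrix.Norms.L2Operator in
/-- the Hölder inequality relatively to a power of a positive matrix -/
theorem hold (U : Matrix n n ℂ) (hU : Uᴴ * U = 1) (hU' : U * Uᴴ = 1) (l : n → ℝ)
    (hl : ∀ j, 3 / 4 ≤ l j) (M : ℕ) (hM1 : 1 ≤ M) :
    ∃ Gi : Matrix n n ℂ, ‖Gi‖ ≤ 4 / 3 ∧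
      Gi * (U * Matrix.diagonal (fun j => ((l j : ℝ) : ℂ)) * Uᴴ) = 1 ∧
      ∀ z : Fin M → Matrix n n ℂ,
        fr (op z) ≤ Real.sqrt (∑ j, l j ^ (2 * M)) * ∏ t, ‖Gi * z t‖ := by
  have hl0 : ∀ j, 0 ≤ l j := fun j => by linarith [hl j]
  refine ⟨U * Matrix.diagonal (fun j => (((l j)⁻¹ : ℝ) : ℂ)) * Uᴴ, ?_, ?_, ?_⟩
  · have hUn := norm_unit U hU
    have h2 : ‖(Matrix.diagonal (fun j => (((l j)⁻¹ : ℝ) : ℂ)) : Matrix n n ℂ)‖ ≤ 4 / 3 := by
      rw [Matrix.l2_opNorm_diagonal, pi_norm_le_iff_of_nonneg (by norm_num)]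
      intro j
      rw [Complex.norm_real, Real.norm_eq_abs, abs_of_nonneg (inv_nonneg.2 (hl0 j))]
      rw [inv_le_comm₀ (by linarith [hl j]) (by norm_num)]
      linarith [hl j]
    calc _ ≤ ‖U‖ * ‖(Matrix.diagonal (fun j => (((l j)⁻¹ : ℝ) : ℂ)) : Matrix n n ℂ)‖ * ‖Uᴴ‖ :=
          (norm_mul_le _ _).trans (mul_le_mul_of_nonneg_right (norm_mul_le _ _) (norm_nonneg _))
      _ ≤ 1 * (4 / 3) * 1 := by
          rw [Matrix.l2_opNorm_conjTranspose]
          exact mul_le_mul (mul_le_mul hUn h2 (norm_nonneg _) zero_le_one) hUn (norm_nonneg _)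
            (by norm_num)
      _ = 4 / 3 := by norm_num
  · calc (U * Matrix.diagonal (fun j => (((l j)⁻¹ : ℝ) : ℂ)) * Uᴴ) *
          (U * Matrix.diagonal (fun j => ((l j : ℝ) : ℂ)) * Uᴴ)
        = U * (Matrix.diagonal (fun j => (((l j)⁻¹ : ℝ) : ℂ)) * (Uᴴ * U) *
          Matrix.diagonal (fun j => ((l j : ℝ) : ℂ))) * Uᴴ := by simp only [mul_assoc]
      _ = 1 := by
        rw [hU, mul_one, Matrix.diagonal_mul_diagonal]
        have : (fun i => (((l i)⁻¹ : ℝ) : ℂ) * ((l i : ℝ) : ℂ)) = fun _ => 1 := by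
          funext i
          rw [← Complex.ofReal_mul, inv_mul_cancel₀ (by linarith [hl i]), Complex.ofReal_one]
        rw [this, Matrix.diagonal_one, mul_one, hU']
  · have hGG : (U * Matrix.diagonal (fun j => ((l j : ℝ) : ℂ)) * Uᴴ) *
        (U * Matrix.diagonal (fun j => (((l j)⁻¹ : ℝ) : ℂ)) * Uᴴ) = 1 := by
      calc (U * Matrix.diagonal (fun j => ((l j : ℝ) : ℂ)) * Uᴴ) *
            (U * Matrix.diagonal (fun j => (((l j)⁻¹ : ℝ) : ℂ)) * Uᴴ)
          = U * (Matrix.diagonal (fun j => ((l j : ℝ) : ℂ)) * (Uᴴ * U) *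
            Matrix.diagonal (fun j => (((l j)⁻¹ : ℝ) : ℂ))) * Uᴴ := by simp only [mul_assoc]
        _ = 1 := by
          rw [hU, mul_one, Matrix.diagonal_mul_diagonal]
          have : (fun i => ((l i : ℝ) : ℂ) * (((l i)⁻¹ : ℝ) : ℂ)) = fun _ => 1 := by
            funext i
            rw [← Complex.ofReal_mul, mul_inv_cancel₀ (by linarith [hl i]), Complex.ofReal_one]
          rw [this, Matrix.diagonal_one, mul_one, hU']
    intro z
    have hS0 : 0 ≤ ∑ j, l j ^ (2 * M) := Finset.sum_nonneg fun j _ => pow_nonneg (hl0 j) _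
    have e : op z = op fun t => (U * Matrix.diagonal (fun j => ((l j : ℝ) : ℂ)) * Uᴴ) *
        ((U * Matrix.diagonal (fun j => (((l j)⁻¹ : ℝ) : ℂ)) * Uᴴ) * z t) := by
      congr 1
      funext t
      rw [← mul_assoc, hGG, one_mul]
    have h1 := frob_op U hU l hl0 hM1 fun t =>
      (U * Matrix.diagonal (fun j => (((l j)⁻¹ : ℝ) : ℂ)) * Uᴴ) * z t
    rw [← e] at h1
    apply le_of_sq_le_sq _ (mul_nonneg (Real.sqrt_nonneg _)
      (Finset.prod_nonneg fun t _ => norm_nonneg _))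
    rw [fr_sq, mul_pow, Real.sq_sqrt hS0]
    exact h1

end matrix

lemma num_err (M : ℕ) {x : ℝ} (hM : 2 * M * x ^ 2 ≤ 1) :
    (1 + 4 / 3 * x ^ 2) ^ M - 1 ≤ 4 * (M * x ^ 2) := by
  obtain ⟨u, hu⟩ : ∃ u : ℝ, u = M * (4 / 3 * x ^ 2) := ⟨_, rfl⟩
  have hu0 : 0 ≤ u := by rw [hu]; positivity
  have hu1 : u ≤ 1 := by rw [hu]; linarith
  have h5 : (1 + 4 / 3 * x ^ 2) ^ M ≤ Real.exp u := by
    rw [hu, Real.exp_nat_mul]
    exact pow_le_pow_left₀ (by positivity)
      (by linarith [Real.add_one_le_exp (4 / 3 * x ^ 2)]) _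
  have h6 := exp_bd2 hu0 hu1
  have h7 : 2 * u ≤ 4 * (M * x ^ 2) := by
    have : 0 ≤ (M : ℝ) * x ^ 2 := by positivity
    rw [hu]; linarith
  linarith

end Pool.Agent.K3h59.TE
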