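import Mathlib
import Pool.Agent.K3h59.TE.A

set_option autoImplicit false
set_option linter.unusedSectionVars false
set_option maxHeartbeats 400000

open scoped BigOperators Matrix InnerProductSpace
open Finset Pool.Agent.TH235.PP Pool.Agent.TH235.PQ

namespace Pool.Agent.K3h59.TE

variable {n : Type*} [Fintype n] [DecidableEq n] [Nonempty n]

open scoped Matrix.Norms.L2Operator in
/-- The truncated expansion approximates the power of `G` in the Frobenius norm. -/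
theorem frob_err (hcomb : COMB) {N : ℕ} (adj : Fin N → Fin N → Prop) (K : ℕ)
    (hsym : ∀ b b', adj b b' → adj b' b) (hirr : ∀ b, ¬ adj b b) (hK1 : 1 ≤ K)
    (hK : ∀ b, open Classical in (univ.filter fun b' => adj b b').card ≤ K) (q r : ℕ)
    (G Gi : Matrix n n ℂ) (S : ℝ) (hS : 0 ≤ S) (hGin : ‖Gi‖ ≤ 4 / 3) (hGG : Gi * G = 1)
    (hν : ∀ z : Fin (tm q) → Matrix n n ℂ, fr (op z) ≤ S * ∏ t, ‖Gi * z t‖)
    (y : Fin N → Matrix n n ℂ) (hyG : 1 + ∑ b, y b = G) (y0 : ℝ) (hy0 : 0 ≤ y0)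
    (hy1 : y0 ≤ 1 / 80) (hy : ∀ b, ‖y b‖ ≤ y0) (hN : N * y0 ≤ 1 / 4)
    (hM : 2 * tm q * (N * y0) ^ 2 ≤ 1)
    (hr : N * Real.exp (100 * (K + 1) ^ 2 * (1 + tm q * y0) - r / (10 * K * (K + 1) ^ 2)) ≤ 1) :
    fr (KA adj q y r - G ^ tm q) ≤
      S * (6 * (N * Real.exp (100 * (K + 1) ^ 2 * (1 + tm q * y0) -
          r / (10 * K * (K + 1) ^ 2))) + 4 * (tm q * (N * y0) ^ 2)) := by
  have hpG : (fun a : Matrix n n ℂ => ‖Gi * a‖) (1 + ∑ b, y b) ≤ 1 := by
    simp only []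
    rw [hyG, hGG, norm_one]
  have hK2 := (KA_bound hcomb adj K hsym hirr hK1 hK q r (fun a => ‖Gi * a‖) fr
    (fun a => norm_nonneg _)
    (fun a b => by rw [mul_add]; exact norm_add_le _ _)
    (fun a => (norm_mul_le _ _).trans (mul_le_mul_of_nonneg_right hGin (norm_nonneg _)))
    fr_zero fr_add fr_neg S hS hν y y0 hy0 hy1 hy hpG hN hM hr).2
  obtain ⟨T, hT⟩ : ∃ T : Matrix n n ℂ, T = op fun b => 1 + y b := ⟨_, rfl⟩
  rw [← hT] at hK2
  have hTG : ‖T - G‖ ≤ (N * y0) ^ 2 := by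
    have h1 := ((norm_op_sub y y0 hy hy0).2).trans (pow_bd hy0 (by linarith))
    rw [hyG, ← hT] at h1
    exact h1
  have hE : ‖Gi * (T - G)‖ ≤ 4 / 3 * (N * y0) ^ 2 :=
    (norm_mul_le _ _).trans (mul_le_mul hGin hTG (norm_nonneg _) (by norm_num))
  have hG1 : ‖Gi * G‖ ≤ 1 := by rw [hGG, norm_one]
  have h3 : fr ((G + (T - G)) ^ tm q - G ^ tm q) ≤
      S * ((1 + 4 / 3 * (N * y0) ^ 2) ^ tm q - 1) := by
    refine pow_sub_bound (fun a => ‖Gi * a‖) fr (fun a => norm_nonneg _)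
      (by simpa using fr_zero (n := n)) (by intro a b; exact fr_add a b) S hS hν G (T - G) _ hG1 hE
  rw [add_sub_cancel] at h3
  have h4 := num_err (tm q) hM
  have h5 : KA adj q y r - G ^ tm q = (KA adj q y r - T ^ tm q) + (T ^ tm q - G ^ tm q) :=
    (sub_add_sub_cancel _ _ _).symm
  rw [h5]
  refine (fr_add _ _).trans ?_
  rw [mul_add]
  exact add_le_add hK2 (h3.trans (mul_le_mul_of_nonneg_left h4 hS))

end Pool.Agent.K3h59.TE
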