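import Mathlib
import Pool.Agent.K3h59.TE.B

set_option autoImplicit false
set_option linter.unusedSectionVars false
set_option maxHeartbeats 400000

open scoped BigOperators Matrix
open Finset Pool.Agent.TH235.PP Pool.Agent.TH235.PQ

/-!
# A column of low energy
-/

namespace Pool.Agent.K3h59.TE

variable {n : Type*} [Fintype n] [DecidableEq n] [Nonempty n]

lemma ip_add_l (a b c : n → ℂ) : ip (a + b) c = ip a c + ip b c := by
  unfold ip
  rw [← Finset.sum_add_distrib]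
  refine Finset.sum_congr rfl fun s _ => ?_
  rw [Pi.add_apply, map_add, add_mul]

lemma ip_add_r (a b c : n → ℂ) : ip a (b + c) = ip a b + ip a c := by
  unfold ip
  rw [← Finset.sum_add_distrib]
  refine Finset.sum_congr rfl fun s _ => ?_
  rw [Pi.add_apply, mul_add]

open scoped Matrix.Norms.L2Operator in
lemma col_pert (X : Matrix n n ℂ) (c : ℝ) (hc : ‖X‖ ≤ c) (u w : n → ℂ) :
    (ip (u + w) (X *ᵥ (u + w))).re ≤ (ip u (X *ᵥ u)).re + c * (2 * (nr u * nr w) + nr w ^ 2) := by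
  have hb : ∀ a b : n → ℂ, (ip a (X *ᵥ b)).re ≤ c * (nr a * nr b) := by
    intro a b
    refine (Complex.re_le_norm _).trans ((ip_le _ _).trans ?_)
    have h1 := nr_mulVec X b
    have h2 : ‖X‖ * nr b ≤ c * nr b := mul_le_mul_of_nonneg_right hc (nr_nonneg b)
    have h3 := mul_le_mul_of_nonneg_left (h1.trans h2) (nr_nonneg a)
    refine h3.trans (le_of_eq ?_)
    ring
  rw [Matrix.mulVec_add, ip_add_l, ip_add_r, ip_add_r]
  simp only [Complex.add_re]
  have h1 := hb u w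
  have h2 := hb w u
  have h3 := hb w w
  have h4 : c * (2 * (nr u * nr w) + nr w ^ 2) =
      c * (nr u * nr w) + c * (nr w * nr u) + c * (nr w * nr w) := by ring
  rw [h4]
  linarith

/-- columns -/
def col (W : Matrix n n ℂ) (t : n) : n → ℂ := fun s => W s t

lemma sum_col (W : Matrix n n ℂ) : ∑ t, nr (col W t) ^ 2 = fr W ^ 2 := by
  rw [fr_sq]
  unfold fr2
  rw [Finset.sum_comm]
  refine Finset.sum_congr rfl fun t _ => ?_
  rw [nr_sq]
  rfl

open scoped Matrix.Norms.L2Operator in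
lemma cols_pert (X : Matrix n n ℂ) (c : ℝ) (hc0 : 0 ≤ c) (hc : ‖X‖ ≤ c) (V W : Matrix n n ℂ) :
    ∑ t, (ip (col (V + W) t) (X *ᵥ col (V + W) t)).re ≤
      ∑ t, (ip (col V t) (X *ᵥ col V t)).re + c * (2 * (fr V * fr W) + fr W ^ 2) := by
  have h1 : ∀ t, (ip (col (V + W) t) (X *ᵥ col (V + W) t)).re ≤
      (ip (col V t) (X *ᵥ col V t)).re +
        c * (2 * (nr (col V t) * nr (col W t)) + nr (col W t) ^ 2) := by
    intro t
    have e : col (V + W) t = col V t + col W t := by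
      funext s
      rfl
    rw [e]
    exact col_pert X c hc _ _
  refine (Finset.sum_le_sum fun t _ => h1 t).trans ?_
  rw [Finset.sum_add_distrib, ← Finset.mul_sum, Finset.sum_add_distrib, ← Finset.mul_sum, sum_col]
  have h2 : ∑ t, nr (col V t) * nr (col W t) ≤ fr V * fr W := by
    have h3 := Real.sum_mul_le_sqrt_mul_sqrt univ (fun t => nr (col V t)) (fun t => nr (col W t))
    rw [sum_col, sum_col, Real.sqrt_sq (fr_nonneg V), Real.sqrt_sq (fr_nonneg W)] at h3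
    exact h3
  have h4 : c * (2 * ∑ t, nr (col V t) * nr (col W t) + fr W ^ 2) ≤
      c * (2 * (fr V * fr W) + fr W ^ 2) :=
    mul_le_mul_of_nonneg_left (by linarith) hc0
  linarith

/-- functions of a Hermitian matrix, in the eigenbasis -/
noncomputable def dg (U : Matrix n n ℂ) (f : n → ℝ) : Matrix n n ℂ :=
  U * Matrix.diagonal (fun j => ((f j : ℝ) : ℂ)) * Uᴴ

lemma dg_mul {U : Matrix n n ℂ} (hU : Uᴴ * U = 1) (f g : n → ℝ) :
    dg U f * dg U g = dg U (fun j => f j * g j) := by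
  unfold dg
  calc U * Matrix.diagonal (fun j => ((f j : ℝ) : ℂ)) * Uᴴ *
        (U * Matrix.diagonal (fun j => ((g j : ℝ) : ℂ)) * Uᴴ)
      = U * (Matrix.diagonal (fun j => ((f j : ℝ) : ℂ)) * (Uᴴ * U) *
        Matrix.diagonal (fun j => ((g j : ℝ) : ℂ))) * Uᴴ := by simp only [mul_assoc]
    _ = _ := by
      rw [hU, mul_one, Matrix.diagonal_mul_diagonal]
      congr 3
      funext j
      push_cast
      rfl

lemma dg_one {U : Matrix n n ℂ} (hU' : U * Uᴴ = 1) : dg U (fun _ => 1) = 1 := by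
  unfold dg
  simp [hU']

lemma dg_pow {U : Matrix n n ℂ} (hU : Uᴴ * U = 1) (hU' : U * Uᴴ = 1) (f : n → ℝ) (M : ℕ) :
    dg U f ^ M = dg U (fun j => f j ^ M) := by
  induction M with
  | zero => simp [dg_one hU']
  | succ M ih =>
    rw [pow_succ, ih, dg_mul hU]
    congr 1

lemma dg_herm (U : Matrix n n ℂ) (f : n → ℝ) : (dg U f)ᴴ = dg U f := by
  unfold dg
  rw [Matrix.conjTranspose_mul, Matrix.conjTranspose_mul, Matrix.conjTranspose_conjTranspose,
    Matrix.diagonal_conjTranspose, mul_assoc]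
  congr 3
  funext j
  simp

lemma dg_trace {U : Matrix n n ℂ} (hU : Uᴴ * U = 1) (f : n → ℝ) :
    (dg U f).trace = ((∑ j, f j : ℝ) : ℂ) := by
  unfold dg
  rw [Matrix.trace_mul_comm, ← mul_assoc, hU, one_mul, Matrix.trace_diagonal]
  push_cast
  rfl

lemma fr2_dg {U : Matrix n n ℂ} (hU : Uᴴ * U = 1) (f : n → ℝ) :
    fr2 (dg U f) = ∑ j, f j ^ 2 := by
  have h1 := fr2_trace (dg U f)
  rw [dg_herm, dg_mul hU, dg_trace hU] at h1
  have h2 : (∑ j, f j * f j : ℝ) = fr2 (dg U f) := by exact_mod_cast h1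
  rw [← h2]
  exact Finset.sum_congr rfl fun j _ => (sq (f j)).symm

lemma ip_col (X W : Matrix n n ℂ) (t : n) :
    ip (col W t) (X *ᵥ col W t) = (Wᴴ * (X * W)) t t := by
  rw [Matrix.mul_apply]
  unfold ip
  refine Finset.sum_congr rfl fun s _ => ?_
  rw [Matrix.conjTranspose_apply, Matrix.mul_apply]
  rfl

lemma sum_ip_dg {U : Matrix n n ℂ} (hU : Uᴴ * U = 1) (x g : n → ℝ) :
    ∑ t, (ip (col (dg U g) t) (dg U x *ᵥ col (dg U g) t)).re = ∑ j, x j * g j ^ 2 := by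
  have h1 : ∑ t, ip (col (dg U g) t) (dg U x *ᵥ col (dg U g) t) =
      ((∑ j, x j * g j ^ 2 : ℝ) : ℂ) := by
    have h2 : ∑ t, ip (col (dg U g) t) (dg U x *ᵥ col (dg U g) t) =
        ((dg U g)ᴴ * (dg U x * dg U g)).trace := by
      unfold Matrix.trace
      exact Finset.sum_congr rfl fun t _ => ip_col _ _ _
    rw [h2, dg_herm, dg_mul hU, dg_mul hU, dg_trace hU]
    congr 1
    refine Finset.sum_congr rfl fun j _ => ?_
    ring
  rw [← Complex.re_sum, h1, Complex.ofReal_re]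

open scoped Matrix.Norms.L2Operator in
/-- A matrix close to a function of `X` has a column on which `X` is negative. -/
theorem neg_col {U : Matrix n n ℂ} (hU : Uᴴ * U = 1) (x g : n → ℝ) (c δ : ℝ) (hc0 : 0 ≤ c)
    (hc : ‖dg U x‖ ≤ c) (K0 : Matrix n n ℂ)
    (hK : fr (K0 - dg U g) ≤ Real.sqrt (∑ j, g j ^ 2) * δ)
    (hpos : 0 < ∑ j, g j ^ 2) (hneg : ∑ j, x j * g j ^ 2 ≤ -(1 / 2) * ∑ j, g j ^ 2)
    (hsm : c * (2 * δ + δ ^ 2) < 1 / 2) :
    ∃ t, (ip (col K0 t) (dg U x *ᵥ col K0 t)).re < 0 := by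
  by_contra hcon
  push Not at hcon
  have h0 : 0 ≤ ∑ t, (ip (col K0 t) (dg U x *ᵥ col K0 t)).re :=
    Finset.sum_nonneg fun t _ => hcon t
  have h1 := cols_pert (dg U x) c hc0 hc (dg U g) (K0 - dg U g)
  have e1 : dg U g + (K0 - dg U g) = K0 := by abel
  rw [e1, sum_ip_dg hU] at h1
  have h2 : fr (dg U g) = Real.sqrt (∑ j, g j ^ 2) := by
    rw [← fr2_dg hU, ← fr_sq, Real.sqrt_sq (fr_nonneg _)]
  rw [h2] at h1
  obtain ⟨S, hS⟩ : ∃ S : ℝ, S = Real.sqrt (∑ j, g j ^ 2) := ⟨_, rfl⟩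
  have hS2 : S ^ 2 = ∑ j, g j ^ 2 := by rw [hS]; exact Real.sq_sqrt hpos.le
  have hS0 : 0 ≤ S := by rw [hS]; exact Real.sqrt_nonneg _
  rw [← hS] at h1 hK
  rw [← hS2] at hneg hpos
  have hF0 := fr_nonneg (K0 - dg U g)
  have h3 : S * fr (K0 - dg U g) ≤ S * (S * δ) := mul_le_mul_of_nonneg_left hK hS0
  have h4 : fr (K0 - dg U g) ^ 2 ≤ (S * δ) ^ 2 := pow_le_pow_left₀ hF0 hK 2
  have h5 : c * (2 * (S * fr (K0 - dg U g)) + fr (K0 - dg U g) ^ 2) ≤
      c * (2 * (S * (S * δ)) + (S * δ) ^ 2) :=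
    mul_le_mul_of_nonneg_left (by linarith) hc0
  have h6 : c * (2 * (S * (S * δ)) + (S * δ) ^ 2) = (c * (2 * δ + δ ^ 2)) * S ^ 2 := by ring
  have h7 : (c * (2 * δ + δ ^ 2)) * S ^ 2 < 1 / 2 * S ^ 2 := mul_lt_mul_of_pos_right hsm hpos
  linarith

end Pool.Agent.K3h59.TE
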