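import Mathlib
import Pool.Agent.K3h59.TE.C

set_option autoImplicit false
set_option linter.unusedSectionVars false
set_option maxHeartbeats 400000

open scoped BigOperators Matrix
open Finset Pool.Agent.TH235.PP Pool.Agent.TH235.PQ

/-!
# Gibbs weights
-/

namespace Pool.Agent.K3h59.TE

lemma one_sub_ge {x : ℝ} (hx : |x| ≤ 1 / 4) : Real.exp (-x - 2 * x ^ 2) ≤ 1 - x := by
  have h1 := Real.abs_log_sub_add_sum_range_le (x := x) (by linarith [abs_nonneg x]) 1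
  simp only [Finset.sum_range_one, zero_add, pow_one, Nat.cast_zero, div_one] at h1
  have hx' := abs_le.mp hx
  have h2 : |x| ^ (1 + 1) / (1 - |x|) ≤ 2 * x ^ 2 := by
    rw [show (1 : ℕ) + 1 = 2 from rfl, sq_abs, div_le_iff₀ (by linarith [abs_nonneg x])]
    nlinarith [sq_nonneg x, abs_nonneg x]
  have h3 := (abs_le.mp (h1.trans h2)).1
  have h4 : 0 < 1 - x := by linarith [hx'.2]
  rw [← Real.log_le_log_iff (Real.exp_pos _) h4, Real.log_exp]
  linarith

/-- The weights `(1 - κ λ)^{2M}` behave like the Gibbs weights at `β = 2 κ M`. -/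
theorem weights {ι : Type*} [Fintype ι] (lam : ι → ℝ) (Λ β κ U η : ℝ) (M : ℕ) (hβ : β = 2 * κ * M)
    (hκ : 0 ≤ κ) (hlam : ∀ j, |lam j| ≤ Λ) (hκΛ : κ * Λ ≤ 1 / 4) (hη : 4 * M * (κ * Λ) ^ 2 ≤ η)
    (hη2 : η ≤ 1 / 2) (hη3 : 4 * Λ * η ≤ 1 / 2) (hΛ : 0 ≤ Λ) (hU : |U| ≤ Λ)
    (hZ : ∑ j, (lam j - U) * Real.exp (-(β * lam j)) ≤ 0) :
    ∑ j, (lam j - (U + 1)) * ((1 - κ * lam j) ^ M) ^ 2 ≤
      -(1 / 2) * ∑ j, ((1 - κ * lam j) ^ M) ^ 2 := by
  have hη0 : 0 ≤ η := le_trans (by positivity) hη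
  have hx : ∀ j, |κ * lam j| ≤ κ * Λ := by
    intro j
    rw [abs_mul, abs_of_nonneg hκ]
    exact mul_le_mul_of_nonneg_left (hlam j) hκ
  have hx4 : ∀ j, |κ * lam j| ≤ 1 / 4 := fun j => (hx j).trans hκΛ
  have hpos : ∀ j, 0 ≤ 1 - κ * lam j := fun j => by linarith [(abs_le.mp (hx4 j)).2]
  have hup : ∀ j, ((1 - κ * lam j) ^ M) ^ 2 ≤ Real.exp (-(β * lam j)) := by
    intro j
    have h1 : 1 - κ * lam j ≤ Real.exp (-(κ * lam j)) := by
      linarith [Real.add_one_le_exp (-(κ * lam j))]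
    have h2 : ((1 - κ * lam j) ^ M) ^ 2 ≤ ((Real.exp (-(κ * lam j))) ^ M) ^ 2 :=
      pow_le_pow_left₀ (pow_nonneg (hpos j) _) (pow_le_pow_left₀ (hpos j) h1 _) _
    refine h2.trans (le_of_eq ?_)
    rw [← pow_mul, ← Real.exp_nat_mul, hβ]
    congr 1
    push_cast
    ring
  have hlow : ∀ j, (1 - η) * Real.exp (-(β * lam j)) ≤ ((1 - κ * lam j) ^ M) ^ 2 := by
    intro j
    have h1 := one_sub_ge (hx4 j)
    have h2 : ((Real.exp (-(κ * lam j) - 2 * (κ * lam j) ^ 2)) ^ M) ^ 2 ≤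
        ((1 - κ * lam j) ^ M) ^ 2 :=
      pow_le_pow_left₀ (pow_nonneg (Real.exp_pos _).le _)
        (pow_le_pow_left₀ (Real.exp_pos _).le h1 _) _
    refine le_trans ?_ h2
    rw [← pow_mul, ← Real.exp_nat_mul]
    have h3 : ((M * 2 : ℕ) : ℝ) * (-(κ * lam j) - 2 * (κ * lam j) ^ 2) =
        -(4 * M * (κ * lam j) ^ 2) + -(β * lam j) := by
      rw [hβ]; push_cast; ring
    rw [h3, Real.exp_add]
    apply mul_le_mul_of_nonneg_right _ (Real.exp_pos _).le
    have h4 : (κ * lam j) ^ 2 ≤ (κ * Λ) ^ 2 := by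
      rw [← sq_abs (κ * lam j)]
      exact pow_le_pow_left₀ (abs_nonneg _) (hx j) 2
    have h5 : 4 * M * (κ * lam j) ^ 2 ≤ η :=
      (mul_le_mul_of_nonneg_left h4 (by positivity)).trans hη
    linarith [Real.add_one_le_exp (-(4 * M * (κ * lam j) ^ 2))]
  obtain ⟨v, hv⟩ : ∃ v : ι → ℝ, v = fun j => ((1 - κ * lam j) ^ M) ^ 2 := ⟨_, rfl⟩
  obtain ⟨w, hw⟩ : ∃ w : ι → ℝ, w = fun j => Real.exp (-(β * lam j)) := ⟨_, rfl⟩
  have hup' : ∀ j, v j ≤ w j := by rw [hv, hw]; exact hup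
  have hlow' : ∀ j, (1 - η) * w j ≤ v j := by rw [hv, hw]; exact hlow
  have hw0 : ∀ j, 0 ≤ w j := by rw [hw]; exact fun j => (Real.exp_pos _).le
  have hZ' : ∑ j, (lam j - U) * w j ≤ 0 := by rw [hw]; exact hZ
  have hgoal : ∑ j, (lam j - (U + 1)) * v j ≤ -(1 / 2) * ∑ j, v j := by
    have h1 : ∀ j, (lam j - (U + 1)) * v j ≤ (lam j - U) * w j + (4 * Λ * η - 1) * v j := by
      intro j
      have hl := abs_le.mp (hlam j)
      have hu := abs_le.mp hU
      have h2 : -(2 * Λ) ≤ lam j - U := by linarith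
      have h3 : 0 ≤ w j - v j := by linarith [hup' j]
      have h4 : w j - v j ≤ 2 * η * v j := by
        have h5 : (1 : ℝ) / 2 * w j ≤ (1 - η) * w j :=
          mul_le_mul_of_nonneg_right (by linarith) (hw0 j)
        have h6 : η * w j ≤ η * (2 * v j) :=
          mul_le_mul_of_nonneg_left (by linarith [hlow' j]) hη0
        linarith [hlow' j]
      have h5 : -(2 * Λ) * (w j - v j) ≤ (lam j - U) * (w j - v j) :=
        mul_le_mul_of_nonneg_right h2 h3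
      have h6 : (2 * Λ) * (w j - v j) ≤ (2 * Λ) * (2 * η * v j) :=
        mul_le_mul_of_nonneg_left h4 (by linarith)
      have e1 : (lam j - (U + 1)) * v j =
          (lam j - U) * w j - (lam j - U) * (w j - v j) - v j := by ring
      rw [e1]
      linarith
    refine (Finset.sum_le_sum fun j _ => h1 j).trans ?_
    rw [Finset.sum_add_distrib, ← Finset.mul_sum]
    have hv0 : 0 ≤ ∑ j, v j := by
      rw [hv]
      exact Finset.sum_nonneg fun j _ => sq_nonneg _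
    nlinarith only [hZ', hv0, hη3]
  rw [hv] at hgoal
  exact hgoal

variable {n : Type*} [Fintype n] [DecidableEq n] [Nonempty n]

/-- The energy of the Gibbs state at the inverse temperature `β`. -/
noncomputable def gibbs {H : Matrix n n ℂ} (hH : H.IsHermitian) (β : ℝ) : ℝ :=
  (∑ j, hH.eigenvalues j * Real.exp (-(β * hH.eigenvalues j))) /
    ∑ j, Real.exp (-(β * hH.eigenvalues j))

lemma gibbs_zero {H : Matrix n n ℂ} (hH : H.IsHermitian) (β : ℝ) :
    ∑ j, (hH.eigenvalues j - gibbs hH β) * Real.exp (-(β * hH.eigenvalues j)) = 0 := by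
  have hZ : 0 < ∑ j, Real.exp (-(β * hH.eigenvalues j)) :=
    Finset.sum_pos (fun j _ => Real.exp_pos _) univ_nonempty
  simp only [sub_mul]
  rw [Finset.sum_sub_distrib, ← Finset.mul_sum]
  unfold gibbs
  rw [div_mul_cancel₀ _ hZ.ne', sub_self]

lemma gibbs_abs {H : Matrix n n ℂ} (hH : H.IsHermitian) (β Λ : ℝ)
    (hΛ : ∀ j, |hH.eigenvalues j| ≤ Λ) : |gibbs hH β| ≤ Λ := by
  have hZ : 0 < ∑ j, Real.exp (-(β * hH.eigenvalues j)) :=
    Finset.sum_pos (fun j _ => Real.exp_pos _) univ_nonempty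
  unfold gibbs
  rw [abs_div, abs_of_pos hZ, div_le_iff₀ hZ, Finset.mul_sum]
  refine (Finset.abs_sum_le_sum_abs _ _).trans (Finset.sum_le_sum fun j _ => ?_)
  rw [abs_mul, abs_of_pos (Real.exp_pos _)]
  exact mul_le_mul_of_nonneg_right (hΛ j) (Real.exp_pos _).le

open scoped Matrix.Norms.L2Operator in
lemma eig_le (A : Matrix n n ℂ) (hA : A.IsHermitian) (j : n) : |hA.eigenvalues j| ≤ ‖A‖ := by
  have hAb : A *ᵥ (hA.eigenvectorBasis j).ofLp =
      (hA.eigenvalues j : ℂ) • (hA.eigenvectorBasis j).ofLp := by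
    have := hA.mulVec_eigenvectorBasis j
    rw [this]
    rfl
  have hnb : nr (hA.eigenvectorBasis j).ofLp = 1 := hA.eigenvectorBasis.norm_eq_one j
  have h1 := nr_mulVec A (hA.eigenvectorBasis j).ofLp
  rw [hAb, nr_smul, hnb, mul_one, mul_one, Complex.norm_real, Real.norm_eq_abs] at h1
  exact h1

open scoped Matrix.Norms.L2Operator in
lemma norm_dg {U : Matrix n n ℂ} (hU : Uᴴ * U = 1) (x : n → ℝ) (c : ℝ) (hc0 : 0 ≤ c)
    (hc : ∀ j, |x j| ≤ c) : ‖dg U x‖ ≤ c := by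
  have hUn := norm_unit U hU
  have h2 : ‖(Matrix.diagonal (fun j => ((x j : ℝ) : ℂ)) : Matrix n n ℂ)‖ ≤ c := by
    rw [Matrix.l2_opNorm_diagonal, pi_norm_le_iff_of_nonneg hc0]
    intro j
    rw [Complex.norm_real, Real.norm_eq_abs]
    exact hc j
  unfold dg
  calc _ ≤ ‖U‖ * ‖(Matrix.diagonal (fun j => ((x j : ℝ) : ℂ)) : Matrix n n ℂ)‖ * ‖Uᴴ‖ :=
        (norm_mul_le _ _).trans (mul_le_mul_of_nonneg_right (norm_mul_le _ _) (norm_nonneg _))
    _ ≤ 1 * c * 1 := by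
        rw [Matrix.l2_opNorm_conjTranspose]
        exact mul_le_mul (mul_le_mul hUn h2 (norm_nonneg _) zero_le_one) hUn (norm_nonneg _)
          (by linarith)
    _ = c := by ring

/-- spectral decomposition, in terms of `dg` -/
lemma spec_dg (A : Matrix n n ℂ) (hA : A.IsHermitian) :
    ∃ U : Matrix n n ℂ, Uᴴ * U = 1 ∧ U * Uᴴ = 1 ∧
      (∀ κ : ℝ, (1 : Matrix n n ℂ) - (κ : ℂ) • A = dg U (fun j => 1 - κ * hA.eigenvalues j)) ∧
      ∀ E : ℝ, dg U (fun j => hA.eigenvalues j - E) = A - (E : ℂ) • (1 : Matrix n n ℂ) := by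
  obtain ⟨U, hU, hU', hdec⟩ := spec_dec A hA
  refine ⟨U, hU, hU', hdec, fun E => ?_⟩
  have h1 : dg U (fun j => hA.eigenvalues j - E) =
      ((1 - E : ℝ) : ℂ) • dg U (fun _ => 1) - dg U (fun j => 1 - 1 * hA.eigenvalues j) := by
    unfold dg
    rw [← Matrix.smul_mul, ← Matrix.mul_smul, ← Matrix.sub_mul, ← Matrix.mul_sub]
    congr 2
    rw [← Matrix.diagonal_smul, Matrix.diagonal_sub]
    congr 1
    funext j
    simp only [Pi.smul_apply, smul_eq_mul]
    push_cast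
    ring
  have h2 : dg U (fun j => 1 - 1 * hA.eigenvalues j) = 1 - ((1 : ℝ) : ℂ) • A := (hdec 1).symm
  rw [h1, dg_one hU', h2, Complex.ofReal_one, one_smul, Complex.ofReal_sub, Complex.ofReal_one,
    sub_smul, one_smul]
  abel

end Pool.Agent.K3h59.TE
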