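import Mathlib
import Pool.Agent.K3h59.TE.D

set_option autoImplicit false
set_option linter.unusedSectionVars false
set_option maxHeartbeats 1000000

open scoped BigOperators Matrix
open Finset Pool.Agent.TH235.PP Pool.Agent.TH235.PQ

/-!
# A PEPS with the energy of the Gibbs state
-/

namespace Pool.Agent.K3h59.TE

variable {d R' L : ℕ} [NeZero L]

open scoped Matrix.Norms.L2Operator in
theorem core_col (hcomb : COMB) [Nonempty (Site L → Fin d)] (h : BoxOp d (R' + 1))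
    (hH : (ham h L).IsHermitian) (β κ y0 η δ₁ Λ : ℝ) (q r K : ℕ) (hKd : K = (R' + 1) ^ 4)
    (hβ : β = 2 * κ * tm q) (hκ : 0 ≤ κ) (hy0 : y0 = κ * nJ h)
    (e : Fin (L ^ 2) ≃ Site L)
    (hNy80 : ((L ^ 2 : ℕ) : ℝ) * y0 ≤ 1 / 80) (hy80 : y0 ≤ 1 / 80)
    (hΛ : Λ = ((L ^ 2 : ℕ) : ℝ) * nJ h)
    (hη : 4 * tm q * (((L ^ 2 : ℕ) : ℝ) * y0) ^ 2 ≤ η) (hη2 : η ≤ 1 / 2)
    (hη3 : 4 * Λ * η ≤ 1 / 2)
    (hr : ((L ^ 2 : ℕ) : ℝ) * Real.exp (100 * (K + 1) ^ 2 * (1 + tm q * y0) -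
      r / (10 * K * (K + 1) ^ 2)) ≤ δ₁) (hδ₁ : δ₁ ≤ 1)
    (hsm : (2 * Λ + 1) * (2 * (6 * δ₁ + η) + (6 * δ₁ + η) ^ 2) < 1 / 2) :
    ∃ t, (ip (col (KA (adjR R' e) q (fun b => ((-κ : ℝ) : ℂ) • term h (e b)) r) t)
      (ham h L *ᵥ col (KA (adjR R' e) q (fun b => ((-κ : ℝ) : ℂ) • term h (e b)) r) t)).re <
      (gibbs hH β + 1) *
        normSq (col (KA (adjR R' e) q (fun b => ((-κ : ℝ) : ℂ) • term h (e b)) r) t) := by
  have hJ0 := nJ_nonneg h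
  have hM1 : 1 ≤ tm q := tm_pos q
  have hy00 : 0 ≤ y0 := by rw [hy0]; positivity
  have hΛ0 : 0 ≤ Λ := by rw [hΛ]; positivity
  have hHn : ‖ham h L‖ ≤ Λ := by
    have h1 : ‖ham h L‖ ≤ (L : ℝ) ^ 2 * nJ h := norm_ham h
    rw [hΛ]; push_cast; exact h1
  have hlam : ∀ j, |hH.eigenvalues j| ≤ Λ := fun j => (eig_le _ hH j).trans hHn
  have hκΛ : κ * Λ = ((L ^ 2 : ℕ) : ℝ) * y0 := by rw [hΛ, hy0]; ring
  have hκΛ4 : κ * Λ ≤ 1 / 4 := by rw [hκΛ]; linarith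
  obtain ⟨U, hU, hU', hdec, hX⟩ := spec_dg (ham h L) hH
  obtain ⟨l, hl⟩ : ∃ l : (Site L → Fin d) → ℝ, l = fun j => 1 - κ * hH.eigenvalues j := ⟨_, rfl⟩
  have hl34 : ∀ j, 3 / 4 ≤ l j := by
    intro j
    rw [hl]
    have h1 : |κ * hH.eigenvalues j| ≤ 1 / 4 := by
      rw [abs_mul, abs_of_nonneg hκ]
      exact (mul_le_mul_of_nonneg_left (hlam j) hκ).trans hκΛ4
    have := (abs_le.mp h1).2
    simp only []
    linarith
  obtain ⟨Gi, hGin, hGG, hν⟩ := hold U hU hU' l hl34 (tm q) hM1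
  obtain ⟨y, hy⟩ : ∃ y : Fin (L ^ 2) → TorOp d L, y = fun b => ((-κ : ℝ) : ℂ) • term h (e b) :=
    ⟨_, rfl⟩
  rw [← hy]
  have hyn : ∀ b, ‖y b‖ ≤ y0 := by
    intro b
    rw [hy]
    simp only []
    rw [norm_smul, Complex.norm_real, Real.norm_eq_abs, abs_neg, abs_of_nonneg hκ, hy0]
    exact mul_le_mul_of_nonneg_left (norm_term h (e b)) hκ
  have hG : 1 + ∑ b, y b = dg U l := by
    have h1 : 1 + ∑ b, y b = 1 - (κ : ℂ) • ham h L := by
      rw [hy]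
      simp only []
      rw [← Finset.smul_sum]
      have : ∑ b, term h (e b) = ham h L := by
        unfold ham
        exact e.sum_comp (fun u => term h u)
      rw [this]
      push_cast
      rw [neg_smul, sub_eq_add_neg]
    rw [h1, hdec κ, hl]
  have hNy : ((L ^ 2 : ℕ) : ℝ) * y0 ≤ 1 / 4 := by linarith
  have h2M : 2 * (tm q : ℝ) * (((L ^ 2 : ℕ) : ℝ) * y0) ^ 2 ≤ 1 := by
    have h1 : 0 ≤ (tm q : ℝ) * (((L ^ 2 : ℕ) : ℝ) * y0) ^ 2 := by positivity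
    linarith
  have hK1 : 1 ≤ K := by rw [hKd]; exact Nat.one_le_pow _ _ (Nat.succ_pos _)
  have hKc : ∀ b, open Classical in (univ.filter fun b' => adjR R' e b b').card ≤ K := by
    intro b
    rw [hKd]
    exact adjR_card e b
  have herr := frob_err hcomb (adjR R' e) K (adjR_symm e) (adjR_irr e) hK1 hKc q r (dg U l) Gi
    (Real.sqrt (∑ j, l j ^ (2 * tm q))) (Real.sqrt_nonneg _) hGin hGG hν y hG y0 hy00 hy80 hyn
    hNy h2M (hr.trans hδ₁)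
  obtain ⟨K0, hK0⟩ : ∃ K0 : TorOp d L, K0 = KA (adjR R' e) q y r := ⟨_, rfl⟩
  rw [← hK0] at herr ⊢
  rw [dg_pow hU hU'] at herr
  have hsumeq : ∑ j, l j ^ (2 * tm q) = ∑ j, (l j ^ tm q) ^ 2 := by
    refine Finset.sum_congr rfl fun j _ => ?_
    rw [← pow_mul, mul_comm]
  rw [hsumeq] at herr
  have herr2 : fr (K0 - dg U (fun j => l j ^ tm q)) ≤
      Real.sqrt (∑ j, (l j ^ tm q) ^ 2) * (6 * δ₁ + η) := by
    refine herr.trans (mul_le_mul_of_nonneg_left ?_ (Real.sqrt_nonneg _))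
    linarith
  have hpos : 0 < ∑ j, (l j ^ tm q) ^ 2 :=
    Finset.sum_pos (fun j _ => by
      have : 0 < l j := by linarith [hl34 j]
      positivity) univ_nonempty
  have hneg := weights hH.eigenvalues Λ β κ (gibbs hH β) η (tm q) hβ hκ hlam hκΛ4
    (by rw [hκΛ]; exact hη) hη2 hη3 hΛ0 (gibbs_abs hH β Λ hlam) (gibbs_zero hH β).le
  have hnegl : ∑ j, (hH.eigenvalues j - (gibbs hH β + 1)) * (l j ^ tm q) ^ 2 ≤
      -(1 / 2) * ∑ j, (l j ^ tm q) ^ 2 := by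
    rw [hl]; exact hneg
  have hgab := gibbs_abs hH β Λ hlam
  have hnx : ‖dg U (fun j => hH.eigenvalues j - (gibbs hH β + 1))‖ ≤ 2 * Λ + 1 := by
    apply norm_dg hU _ _ (by linarith)
    intro j
    have h1 := abs_le.mp (hlam j)
    have h2 := abs_le.mp hgab
    rw [abs_le]
    constructor <;> linarith
  obtain ⟨t, ht⟩ := neg_col hU _ (fun j => l j ^ tm q) (2 * Λ + 1) (6 * δ₁ + η) (by linarith) hnx
    K0 herr2 hpos hnegl hsm
  refine ⟨t, ?_⟩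
  rw [hX, Matrix.sub_mulVec, Matrix.smul_mulVec, Matrix.one_mulVec] at ht
  have h1 : ip (col K0 t) (ham h L *ᵥ col K0 t - ((gibbs hH β + 1 : ℝ) : ℂ) • col K0 t) =
      ip (col K0 t) (ham h L *ᵥ col K0 t) -
        ((gibbs hH β + 1 : ℝ) : ℂ) * ((normSq (col K0 t) : ℝ) : ℂ) := by
    unfold ip normSq
    push_cast
    rw [Finset.mul_sum, ← Finset.sum_sub_distrib]
    refine Finset.sum_congr rfl fun s _ => ?_
    rw [Pi.sub_apply, Pi.smul_apply, smul_eq_mul, mul_sub]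
    congr 1
    have h2 : (starRingEnd ℂ) (col K0 t s) * col K0 t s = ((‖col K0 t s‖ : ℝ) : ℂ) ^ 2 := by
      rw [mul_comm, Complex.mul_conj, Complex.normSq_eq_norm_sq]
      push_cast
      rfl
    rw [← h2]
    push_cast
    ring
  rw [h1, ← Complex.ofReal_mul, Complex.sub_re, Complex.ofReal_re] at ht
  linarith

end Pool.Agent.K3h59.TE
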