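import Mathlib
import Pool.Agent.K3h59.TE.E

set_option autoImplicit false
set_option linter.unusedSectionVars false
set_option maxHeartbeats 1000000

open scoped BigOperators Matrix
open Finset Pool.Agent.TH235.PP Pool.Agent.TH235.PQ

/-!
# A PEPS with the energy of the Gibbs state: choice of the parameters
-/

namespace Pool.Agent.K3h59.TE

lemma num_r {β lam J c1 c2 r : ℝ} (hβ : 0 ≤ β) (hlam : 1 / 2 ≤ lam) (hJ : 0 ≤ J) (hc1 : 0 ≤ c1)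
    (hc2 : 0 < c2)
    (hr : r ≤ c2 * (c1 * (1 + β * J / 2) + (2 * lam + (2 * lam + Real.log (J + 1) + 4) + 4)) + 1) :
    2 * r + 2 ≤ (2 * (c2 * c1 * (2 + J) + c2 * (20 + 2 * Real.log (J + 1)) + 2) + 4) *
      (β + lam) := by
  have hlog : 0 ≤ Real.log (J + 1) := Real.log_nonneg (by linarith)
  obtain ⟨s, hs⟩ : ∃ s : ℝ, s = β + lam := ⟨_, rfl⟩
  have hs2 : 1 / 2 ≤ s := by rw [hs]; linarith
  have hβs : β ≤ s := by rw [hs]; linarith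
  have hls : lam ≤ s := by rw [hs]; linarith
  have h1 : c1 * (1 + β * J / 2) ≤ c1 * ((2 + J) * s) := by
    apply mul_le_mul_of_nonneg_left _ hc1
    have h2 : β * J ≤ s * J := mul_le_mul_of_nonneg_right hβs hJ
    nlinarith
  have h2 : 2 * lam + (2 * lam + Real.log (J + 1) + 4) + 4 ≤ (20 + 2 * Real.log (J + 1)) * s := by
    nlinarith
  have h3 : c2 * (c1 * (1 + β * J / 2) + (2 * lam + (2 * lam + Real.log (J + 1) + 4) + 4)) ≤
      c2 * (c1 * ((2 + J) * s) + (20 + 2 * Real.log (J + 1)) * s) :=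
    mul_le_mul_of_nonneg_left (add_le_add h1 h2) hc2.le
  rw [← hs]
  have h4 : (2 * (c2 * c1 * (2 + J) + c2 * (20 + 2 * Real.log (J + 1)) + 2) + 4) * s =
      2 * (c2 * (c1 * ((2 + J) * s) + (20 + 2 * Real.log (J + 1)) * s)) + 8 * s := by ring
  rw [h4]
  linarith

lemma num_small {N J Λ T η δ₁ : ℝ} (hN : 1 ≤ N) (hJ : 0 ≤ J) (hΛ : Λ = N * J)
    (hT : T = 1 / (24 * (N * (J + 1)))) {t : ℝ} (ht : t ≤ T) (ht0 : 0 < t) (hη : η = t / 4)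
    (hδ : δ₁ = t / 24) : η ≤ 1 / 2 ∧ 4 * Λ * η ≤ 1 / 2 ∧ δ₁ ≤ 1 ∧
      (2 * Λ + 1) * (2 * (6 * δ₁ + η) + (6 * δ₁ + η) ^ 2) < 1 / 2 := by
  obtain ⟨Y, hY⟩ : ∃ Y : ℝ, Y = N * (J + 1) := ⟨_, rfl⟩
  have hY1 : 1 ≤ Y := by rw [hY]; nlinarith
  have hΛ0 : 0 ≤ Λ := by rw [hΛ]; positivity
  have hΛY : Λ ≤ Y := by rw [hΛ, hY]; nlinarith
  rw [← hY] at hT
  have htY : t * Y ≤ 1 / 24 := by
    have h1 : t * Y ≤ T * Y := mul_le_mul_of_nonneg_right ht (by linarith)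
    have h2 : T * Y = 1 / 24 := by rw [hT]; field_simp
    linarith
  have ht1 : t ≤ 1 / 24 := by
    have : t * 1 ≤ t * Y := mul_le_mul_of_nonneg_left hY1 ht0.le
    linarith
  have hΛt : Λ * t ≤ 1 / 24 := by
    have : Λ * t ≤ Y * t := mul_le_mul_of_nonneg_right hΛY ht0.le
    linarith
  have e1 : 6 * δ₁ + η = t / 2 := by rw [hη, hδ]; ring
  refine ⟨by rw [hη]; linarith, by rw [hη]; linarith, by rw [hδ]; linarith, ?_⟩
  rw [e1]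
  have h3 : (2 * Λ + 1) * (2 * (t / 2) + (t / 2) ^ 2) ≤ (2 * Λ + 1) * (2 * t) := by
    apply mul_le_mul_of_nonneg_left _ (by linarith)
    nlinarith
  have h4 : (2 * Λ + 1) * (2 * t) = 4 * (Λ * t) + 2 * t := by ring
  linarith

/-- **A PEPS with the energy of the Gibbs state.** -/
theorem thermal_peps (d R' : ℕ) (h : BoxOp d (R' + 1)) :
    ∃ C : ℝ, 0 < C ∧ ∀ (L : ℕ) [NeZero L] [Nonempty (Site L → Fin d)], 2 ≤ L → R' + 1 ≤ L →
      ∀ (hH : (ham h L).IsHermitian) (β : ℝ), 0 ≤ β →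
      ∃ (D : ℕ) (φ : (Site L → Fin d) → ℂ), (D : ℝ) ≤ Real.exp (C * (β + Real.log L)) ∧
        IsPEPS D φ ∧ (ip φ (ham h L *ᵥ φ)).re < (gibbs hH β + 1) * normSq φ := by
  have hJ0 : 0 ≤ nJ h := nJ_nonneg h
  obtain ⟨K, hK⟩ : ∃ K : ℕ, K = (R' + 1) ^ 4 := ⟨_, rfl⟩
  have hK1 : 1 ≤ K := by rw [hK]; exact Nat.one_le_pow _ _ (Nat.succ_pos _)
  have hK1' : (1 : ℝ) ≤ K := by exact_mod_cast hK1
  obtain ⟨c1, hc1⟩ : ∃ c1 : ℝ, c1 = 100 * ((K : ℝ) + 1) ^ 2 := ⟨_, rfl⟩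
  obtain ⟨c2, hc2⟩ : ∃ c2 : ℝ, c2 = 10 * (K : ℝ) * ((K : ℝ) + 1) ^ 2 := ⟨_, rfl⟩
  have hc10 : 0 ≤ c1 := by rw [hc1]; positivity
  have hc20 : 0 < c2 := by rw [hc2]; positivity
  obtain ⟨J, hJ⟩ : ∃ J : ℝ, J = nJ h := ⟨_, rfl⟩
  have hJ0' : 0 ≤ J := by rw [hJ]; exact hJ0
  have hlogJ : 0 ≤ Real.log (J + 1) := Real.log_nonneg (by linarith)
  refine ⟨4 * ((Fintype.card (Lm d (R' + 1)) : ℕ) + 1) *
    (2 * (c2 * c1 * (2 + J) + c2 * (20 + 2 * Real.log (J + 1)) + 2) + 4) *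
      ((2 * R' + 1 : ℕ) : ℝ) ^ 2, by positivity, ?_⟩
  intro L _ _ hL hRL hH β hβ
  have hL2 : (2 : ℝ) ≤ L := by exact_mod_cast hL
  have hlam0 : 1 / 2 ≤ Real.log L := by
    have h1 : Real.log 2 ≤ Real.log L := Real.log_le_log (by norm_num) hL2
    have := Real.log_two_gt_d9
    linarith
  have hNexp : ((L ^ 2 : ℕ) : ℝ) = Real.exp (2 * Real.log L) := by
    rw [two_mul, Real.exp_add, Real.exp_log (by linarith)]; push_cast; ring
  have hN1 : (1 : ℝ) ≤ ((L ^ 2 : ℕ) : ℝ) := by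
    rw [hNexp]; exact Real.one_le_exp (by linarith)
  obtain ⟨N, hN⟩ : ∃ N : ℝ, N = ((L ^ 2 : ℕ) : ℝ) := ⟨_, rfl⟩
  obtain ⟨lam, hlam⟩ : ∃ lam : ℝ, lam = Real.log L := ⟨_, rfl⟩
  rw [← hlam] at hlam0 hNexp
  rw [← hN] at hNexp hN1
  obtain ⟨B, hB⟩ : ∃ B : ℝ, B = β * J / 2 := ⟨_, rfl⟩
  have hB0 : 0 ≤ B := by rw [hB]; positivity
  obtain ⟨Θ, hΘ⟩ : ∃ Θ : ℝ, Θ = 2 * lam + Real.log (J + 1) + 4 := ⟨_, rfl⟩
  obtain ⟨q, hM1, hM2, hM3⟩ := par_q B N Θ hB0 hN1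
  have hM0 : (0 : ℝ) < tm q := by linarith
  obtain ⟨r, hr1, hr2⟩ := par_r c1 c2 (1 + B) (2 * lam + Θ + 4) hc20
    (by have : 0 ≤ c1 * (1 + B) := by positivity
        rw [hΘ]; linarith)
  obtain ⟨κ, hκ⟩ : ∃ κ : ℝ, κ = β / (2 * tm q) := ⟨_, rfl⟩
  obtain ⟨y0, hy0⟩ : ∃ y0 : ℝ, y0 = κ * nJ h := ⟨_, rfl⟩
  have hκ0 : 0 ≤ κ := by rw [hκ]; positivity
  have hβκ : β = 2 * κ * tm q := by rw [hκ]; field_simp
  have hMy : (tm q : ℝ) * y0 = B := by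
    rw [hy0, hκ, hB, hJ]; field_simp
  have hy0B : y0 = B / tm q := by
    rw [eq_div_iff hM0.ne', mul_comm]; exact hMy
  have hy00 : 0 ≤ y0 := by rw [hy0B]; positivity
  obtain ⟨t, ht⟩ : ∃ t : ℝ, t = Real.exp (-Θ) := ⟨_, rfl⟩
  have ht0 : 0 < t := by rw [ht]; exact Real.exp_pos _
  have htT : t ≤ 1 / (24 * (N * (J + 1))) := by
    have h1 : t = (N * (J + 1))⁻¹ * Real.exp (-4) := by
      rw [ht, hΘ, hNexp, show -(2 * lam + Real.log (J + 1) + 4) =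
        -(2 * lam + Real.log (J + 1)) + -4 by ring, Real.exp_add, Real.exp_neg (2 * lam + _),
        Real.exp_add, Real.exp_log (by linarith)]
    rw [h1]
    have h2 : (0 : ℝ) < N * (J + 1) := by positivity
    calc (N * (J + 1))⁻¹ * Real.exp (-4) ≤ (N * (J + 1))⁻¹ * (1 / 24) :=
          mul_le_mul_of_nonneg_left exp_four (by positivity)
      _ = 1 / (24 * (N * (J + 1))) := by field_simp
  obtain ⟨s1, s2, s3, s4⟩ := num_small (Λ := N * J) (η := t / 4) (δ₁ := t / 24) hN1 hJ0' rfl rfl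
    htT ht0 rfl rfl
  have hNy : N * y0 ≤ 1 / 80 := by
    have : N * y0 = N * B / tm q := by rw [hy0B]; ring
    rw [this]; exact hM2
  have hy80 : y0 ≤ 1 / 80 := by
    have : 1 * y0 ≤ N * y0 := mul_le_mul_of_nonneg_right hN1 hy00
    linarith
  have hη : 4 * (tm q : ℝ) * (N * y0) ^ 2 ≤ t / 4 := by
    have h1 : 4 * (tm q : ℝ) * (N * y0) ^ 2 = 4 * ((N * B) ^ 2 / tm q) := by
      rw [hy0B]; field_simp
    rw [h1]
    rw [← ht] at hM3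
    linarith
  have hrr : N * Real.exp (100 * (K + 1) ^ 2 * (1 + tm q * y0) -
      r / (10 * K * (K + 1) ^ 2)) ≤ t / 24 := by
    rw [hMy]
    rw [hc1, hc2] at hr1
    have h1 : Real.exp (100 * (K + 1) ^ 2 * (1 + B) - r / (10 * K * (K + 1) ^ 2)) ≤
        Real.exp (-(2 * lam + Θ + 4)) := Real.exp_le_exp.2 hr1
    have h2 : N * Real.exp (-(2 * lam + Θ + 4)) = t * Real.exp (-4) := by
      rw [hNexp, ht, ← Real.exp_add, ← Real.exp_add]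
      congr 1
      ring
    calc N * Real.exp (100 * (K + 1) ^ 2 * (1 + B) - r / (10 * K * (K + 1) ^ 2))
        ≤ N * Real.exp (-(2 * lam + Θ + 4)) := mul_le_mul_of_nonneg_left h1 (by linarith)
      _ = t * Real.exp (-4) := h2
      _ ≤ t * (1 / 24) := mul_le_mul_of_nonneg_left exp_four ht0.le
      _ = t / 24 := by ring
  obtain ⟨e⟩ : Nonempty (Fin (L ^ 2) ≃ Site L) := by
    rw [← Fintype.card_eq, Fintype.card_fin, card_site]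
  rw [hN] at hNy hη hrr s2 s4
  rw [hJ] at s2 s4
  obtain ⟨t', ht'⟩ := core_col (comb pair) h hH β κ y0 (t / 4) (t / 24) _ q r K hK hβκ hκ0 hy0 e
    hNy hy80 rfl hη s1 s2 hrr s3 s4
  obtain ⟨A, hA⟩ := peps_KA reg hRL (K := Fin 1)
    (fun x i _ _ _ _ => if i = t' x then (1 : ℂ) else 0) ((-κ : ℝ) : ℂ) h e q r
  rw [basis_contract] at hA
  obtain ⟨K0, hK0⟩ : ∃ K0 : TorOp d L,
      K0 = KA (adjR R' e) q (fun b => ((-κ : ℝ) : ℂ) • term h (e b)) r := ⟨_, rfl⟩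
  rw [← hK0] at ht' hA
  have hx : col K0 t' = contract A := by
    rw [← hA]
    funext s
    rw [Matrix.mulVec_single_one]
    rfl
  rw [hx] at ht'
  refine ⟨_, contract A, ?_, isPEPS_contract A, ht'⟩
  have hcard := card_bdK count (d := d) (R' := R') 1 q r
  rw [Nat.cast_one, one_mul] at hcard
  refine hcard.trans (Real.exp_le_exp.2 ?_)
  have hr3 : (r : ℝ) ≤ c2 * (c1 * (1 + β * J / 2) +
      (2 * lam + (2 * lam + Real.log (J + 1) + 4) + 4)) + 1 := by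
    rw [hB, hΘ] at hr2
    exact hr2
  have h5 := num_r hβ hlam0 hJ0' hc10 hc20 hr3
  rw [← hlam]
  have h6 := mul_le_mul_of_nonneg_left h5
    (by positivity : (0 : ℝ) ≤ 4 * ((Fintype.card (Lm d (R' + 1)) : ℕ) + 1))
  have h7 := mul_le_mul_of_nonneg_right h6 (by positivity : (0 : ℝ) ≤ ((2 * R' + 1 : ℕ) : ℝ) ^ 2)
  refine h7.trans (le_of_eq ?_)
  ring

end Pool.Agent.K3h59.TE
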