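import Mathlib
import Pool.Agent.K3h59.PE.GenCrit

set_option autoImplicit false
set_option linter.unusedSectionVars false
set_option maxHeartbeats 1000000

open scoped BigOperators Topology ComplexOrder
open Finset Filter MeasureTheory
open Pool.Agent.H4R2 Pool.Agent.Y665.PE Pool.Agent.K3h59.PE

/-!
# The energy criterion at a point with a quadratic lower bound, for all invariant ground vectors
-/

namespace Pool.Agent.K3h59.TE

variable {d : ℕ}

/-- **The energy criterion** relative to the least eigenvalue on the torus, for all translation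
invariant ground vectors. -/
theorem point_crit (hd : 2 ≤ d) (R : Finset (ℤ × ℤ)) {x : (R → Fin d) → (R → Fin d) → ℝ}
    {ρ : Matrix (R → Fin d) (R → Fin d) ℂ} (hρ : ρ.IsHermitian) (hQ : QB R x ρ) :
    ∃ C : ℝ, 1 ≤ C ∧ ∀ ε : ℝ, 0 < ε → ε ≤ 1 → ∀ (m : ℕ) [NeZero m], C / ε ^ 2 ≤ m →
      ∀ (f : ℕ) (T : Site m → Tensor d f), contractN T ≠ 0 →
      ∀ E : ℝ, IsLeast' (ham R (herm x) m) E →
      (qf (ham R (herm x) m) (contractN T)).re ≤
        (E + (m : ℝ) ^ 2 * (ε ^ 2 / C)) * normSq (contractN T) →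
      ∃ (D : ℕ) (A : Tensor d D), (D : ℝ) ≤ C * (m / ε ^ 2) ^ 2 * (f : ℝ) ^ 4 ∧
        ∀ (L : ℕ) [NeZero L], C * (m / ε ^ 2) ^ 2 ≤ L → contract A L ≠ 0 ∧
          ∀ φ : (Site L → Fin d) → ℂ, TIGround (ham R (herm x) L) φ →
            traceNorm (redState R φ - redState R (contract A L)) ≤ ε := by
  obtain ⟨K, hK1, hcrit⟩ := crit hd R hρ hQ
  obtain ⟨Cr, hCr, hrate⟩ := rate hd R hρ hQ
  obtain ⟨w, hw0, hener⟩ := energy_rate hd R x
  obtain ⟨N, hN⟩ : ∃ N : ℝ, N = 2 * ((d : ℝ) ^ R.card) ^ 2 := ⟨_, rfl⟩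
  have hN1 : 1 ≤ N := by
    have hdp : (1 : ℝ) ≤ (d : ℝ) ^ R.card := by
      apply one_le_pow₀
      exact_mod_cast (by omega : 1 ≤ d)
    have : (1 : ℝ) ≤ ((d : ℝ) ^ R.card) ^ 2 := one_le_pow₀ hdp
    rw [hN]; linarith
  obtain ⟨C, hC⟩ : ∃ C : ℝ, C = N ^ 2 * K * (w + 1) + N ^ 4 * K + (N * Cr) ^ 2 + w +
    (2 * R.card + 2 * rad R + 4) := ⟨_, rfl⟩
  have q1 : 0 ≤ N ^ 2 * K * (w + 1) := by positivity
  have q2 : 0 ≤ N ^ 4 * K := by positivity
  have q3 : 0 ≤ (N * Cr) ^ 2 := by positivity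
  have q5 : (0 : ℝ) ≤ R.card := Nat.cast_nonneg _
  have q6 : (0 : ℝ) ≤ rad R := Nat.cast_nonneg _
  have hC1 : 1 ≤ C := by rw [hC]; linarith only [q1, q2, q3, hw0, q5, q6]
  have hCa : N ^ 2 * K * (w + 1) ≤ C := by rw [hC]; linarith only [q2, q3, hw0, q5, q6]
  have hCb : N ^ 4 * K ≤ C := by rw [hC]; linarith only [q1, q3, hw0, q5, q6]
  have hCc : (N * Cr) ^ 2 ≤ C := by rw [hC]; linarith only [q1, q2, hw0, q5, q6]
  have hCd : w ≤ C := by rw [hC]; linarith only [q1, q2, q3, q5, q6]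
  have hCe : 2 * (R.card : ℝ) + 2 ≤ C := by rw [hC]; linarith only [q1, q2, q3, hw0, q6]
  have hCf : 2 * (rad R : ℝ) + 2 ≤ C := by rw [hC]; linarith only [q1, q2, q3, hw0, q5]
  clear hC q1 q2 q3 q5 q6
  have hCpos : 0 < C := by linarith only [hC1]
  have hKpos : 0 < K := by linarith only [hK1]
  have hNpos : 0 < N := by linarith only [hN1]
  have sizes : ∀ L : ℕ, C ≤ L → 2 * R.card + 2 ≤ L ∧ 2 * rad R + 2 ≤ L := by
    intro L hL
    refine ⟨?_, ?_⟩
    · have : ((2 * R.card + 2 : ℕ) : ℝ) ≤ L := by push_cast; exact hCe.trans hL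
      exact_mod_cast this
    · have : ((2 * rad R + 2 : ℕ) : ℝ) ≤ L := by push_cast; exact hCf.trans hL
      exact_mod_cast this
  refine ⟨C, hC1, ?_⟩
  intro ε hε hε1 m _ hm f T hT E hE hen
  have hε2 : 0 < ε ^ 2 := by positivity
  have hε21 : ε ^ 2 ≤ 1 := pow_le_one₀ hε.le hε1
  have hm0 : (0 : ℝ) < m := by exact_mod_cast Nat.pos_of_ne_zero (NeZero.ne m)
  have hm1 : (1 : ℝ) ≤ m := by exact_mod_cast Nat.one_le_iff_ne_zero.2 (NeZero.ne m)
  have hCm : C ≤ m := by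
    refine le_trans ?_ hm
    rw [le_div_iff₀ hε2]
    exact mul_le_of_le_one_right hCpos.le hε21
  obtain ⟨ε₁, hε₁⟩ : ∃ ε₁ : ℝ, ε₁ = ε / N := ⟨_, rfl⟩
  have hε₁0 : 0 < ε₁ := by rw [hε₁]; positivity
  have hε₁1 : ε₁ ≤ 1 := by
    rw [hε₁, div_le_one hNpos]; linarith only [hε1, hN1]
  have hε₁sq : ε₁ ^ 2 = ε ^ 2 / N ^ 2 := by rw [hε₁, div_pow]
  have hN2pos : 0 < N ^ 2 := by positivity
  have hKm : K / ε₁ ^ 2 ≤ m := by
    refine le_trans ?_ hm
    rw [hε₁sq, div_div_eq_mul_div]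
    apply div_le_div_of_nonneg_right _ hε2.le
    refine le_trans ?_ hCa
    have : K * N ^ 2 * 1 ≤ K * N ^ 2 * (w + 1) :=
      mul_le_mul_of_nonneg_left (by linarith only [hw0]) (by positivity)
    linarith only [this]
  have hEm : E ≤ (m : ℝ) ^ 2 * (low (limStates d R) x + w * (1 / m)) := by
    have h1 := (abs_le.mp (hener m (hCd.trans hCm) E hE)).2
    have h2 : (m : ℝ) ^ 2 * (low (limStates d R) x + w * (1 / m)) =
        low (limStates d R) x * (m : ℝ) ^ 2 + w * m := by field_simp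
    rw [h2]; linarith only [h1]
  have hPn : 0 < normSq (contractN T) := normSq_pos_of_ne hT
  have hlow : (qf (ham R (herm x) m) (contractN T)).re ≤
      (m : ℝ) ^ 2 * (low (limStates d R) x + ε₁ ^ 2 / K) * normSq (contractN T) := by
    refine hen.trans (mul_le_mul_of_nonneg_right ?_ hPn.le)
    have h1 : w * (1 / (m : ℝ)) + ε ^ 2 / C ≤ ε₁ ^ 2 / K := by
      have h2 : 1 / (m : ℝ) ≤ ε ^ 2 / C := by
        rw [div_le_div_iff₀ hm0 hCpos, one_mul]
        rw [div_le_iff₀ hε2] at hm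
        linarith only [hm]
      have h3 : w * (1 / (m : ℝ)) ≤ w * (ε ^ 2 / C) := mul_le_mul_of_nonneg_left h2 hw0
      have h4 : w * (ε ^ 2 / C) + ε ^ 2 / C = (w + 1) * ε ^ 2 / C := by ring
      have h5 : (w + 1) * ε ^ 2 / C ≤ ε₁ ^ 2 / K := by
        rw [hε₁sq, div_div, div_le_div_iff₀ hCpos (by positivity)]
        have h6 := mul_le_mul_of_nonneg_left hCa hε2.le
        have h7 : (w + 1) * ε ^ 2 * (N ^ 2 * K) = ε ^ 2 * (N ^ 2 * K * (w + 1)) := by ring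
        rw [h7]
        exact h6
      linarith only [h3, h4, h5]
    have h2 : (m : ℝ) ^ 2 * (low (limStates d R) x + w * (1 / m)) + (m : ℝ) ^ 2 * (ε ^ 2 / C) =
        (m : ℝ) ^ 2 * (low (limStates d R) x + (w * (1 / m) + ε ^ 2 / C)) := by ring
    have h3 : E + (m : ℝ) ^ 2 * (ε ^ 2 / C) ≤
        (m : ℝ) ^ 2 * (low (limStates d R) x + (w * (1 / m) + ε ^ 2 / C)) := by
      rw [← h2]; linarith only [hEm]
    refine h3.trans (mul_le_mul_of_nonneg_left ?_ (by positivity))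
    linarith only [h1]
  obtain ⟨D, A, hD, hA⟩ := hcrit ε₁ hε₁0 hε₁1 m hKm f T hT hlow
  have hsc : K * ((m : ℝ) / ε₁ ^ 2) ^ 2 ≤ C * (m / ε ^ 2) ^ 2 := by
    rw [hε₁sq, div_div_eq_mul_div]
    have h1 : K * ((m : ℝ) * N ^ 2 / ε ^ 2) ^ 2 = N ^ 4 * K * (m / ε ^ 2) ^ 2 := by ring
    rw [h1]
    exact mul_le_mul_of_nonneg_right hCb (by positivity)
  refine ⟨D, A, hD.trans (mul_le_mul_of_nonneg_right hsc (by positivity)), ?_⟩
  intro L _ hL
  have hmt1 : 1 ≤ (m : ℝ) / ε ^ 2 := by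
    rw [le_div_iff₀ hε2]; linarith only [hε21, hm1]
  have hLε : C / ε ^ 2 ≤ L := by
    refine le_trans ?_ hL
    rw [div_eq_mul_one_div]
    apply mul_le_mul_of_nonneg_left _ hCpos.le
    have h6 : 1 / ε ^ 2 ≤ (m : ℝ) / ε ^ 2 := div_le_div_of_nonneg_right hm1 hε2.le
    exact h6.trans (le_self_pow₀ hmt1 (by norm_num))
  have hCL : C ≤ L := by
    refine le_trans ?_ hLε
    rw [le_div_iff₀ hε2]
    exact mul_le_of_le_one_right hCpos.le hε21
  obtain ⟨g1, g2⟩ := hA L (hsc.trans hL)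
  refine ⟨g1, ?_⟩
  intro φ hφ
  obtain ⟨s2, s3⟩ := sizes L hCL
  have hL0 : (0 : ℝ) < L := lt_of_lt_of_le hCpos hCL
  have hr1 := hrate L s2 s3 φ hφ.1 hφ.2.1 (hφ.isGround (herm_isHermitian x))
  have hsq : Cr / Real.sqrt L ≤ ε₁ := by
    have hs0 : 0 < Real.sqrt L := Real.sqrt_pos.2 hL0
    rw [div_le_iff₀ hs0, hε₁, div_mul_eq_mul_div, le_div_iff₀ hNpos]
    have h1 : (Cr * N) ^ 2 ≤ (ε * Real.sqrt L) ^ 2 := by
      rw [mul_pow ε, Real.sq_sqrt hL0.le]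
      rw [div_le_iff₀ hε2] at hLε
      have h2 : (Cr * N) ^ 2 = (N * Cr) ^ 2 := by ring
      rw [h2]
      linarith only [hCc, hLε]
    exact (pow_le_pow_iff_left₀ (by positivity) (by positivity) (by norm_num)).1 h1
  apply traceNorm_le' R hd _ ε hε
  intro a b
  have h1 := g2 a b
  have h2 := (hr1 a b).trans hsq
  rw [Matrix.sub_apply]
  have h3 : redState R φ a b - redState R (contract A L) a b =
      (redState R φ a b - ρ a b) - (redState R (contract A L) a b - ρ a b) := by ring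
  rw [h3]
  refine (norm_sub_le _ _).trans ?_
  have h4 : ε / ((d : ℝ) ^ R.card) ^ 2 = 2 * ε₁ := by
    rw [hε₁, hN]
    have hdp : (0 : ℝ) < (d : ℝ) ^ R.card := by
      have : (0 : ℝ) < d := by exact_mod_cast (by omega : 0 < d)
      positivity
    field_simp
  rw [h4]
  linarith only [h1, h2]

end Pool.Agent.K3h59.TE
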