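import Mathlib
import Pool.Agent.K3h59.PE.Few
import Pool.Agent.K3h59.TE.F
import Pool.Agent.K3h59.TE.G

set_option autoImplicit false
set_option linter.unusedSectionVars false
set_option maxHeartbeats 1000000

open scoped BigOperators Topology ComplexOrder
open Finset Filter MeasureTheory
open Pool.Agent.H4R2 Pool.Agent.Y665.PE Pool.Agent.K3h59.PE

/-!
# Local approximation from the energy of the Gibbs state
-/

namespace Pool.Agent.K3h59.TE

variable {d : ℕ}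

/-- a PEPS with the energy of the Gibbs state, for general regions -/
theorem thermal_net (hd : 2 ≤ d) (R : Finset (ℤ × ℤ)) (h : Matrix (R → Fin d) (R → Fin d) ℂ) :
    ∃ C : ℝ, 0 < C ∧ ∀ (L : ℕ) [NeZero L], 2 ≤ L → 2 * rad R + 1 ≤ L →
      ∀ (hH : (ham R h L).IsHermitian) (β : ℝ), 0 ≤ β →
      ∃ (f : ℕ) (T : Site L → Tensor d f), (f : ℝ) ≤ Real.exp (C * (β + Real.log L)) ∧
        contractN T ≠ 0 ∧
        (qf (ham R h L) (contractN T)).re ≤ (gibbs hH β + 1) * normSq (contractN T) := by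
  obtain ⟨C, hC, hpeps⟩ := thermal_peps d (2 * rad R) (boxOp R h)
  refine ⟨C, hC, ?_⟩
  intro L _ hL hRL
  have hne : Nonempty (Pool.Agent.TH235.PP.Site L → Fin d) := ⟨fun _ => ⟨0, by omega⟩⟩
  have key := hpeps L hL hRL
  rw [ham_boxOp R h hRL] at key
  intro hH β hβ
  obtain ⟨D, φ, hD, ⟨A, hA⟩, hlt⟩ := key hH β hβ
  have hcon : contractN (fun (x : Site L) (s : Fin d) (l r up dn : Fin D) => A x s l r dn up) = φ := by
    rw [hA]; rfl
  refine ⟨D, fun (x : Site L) (s : Fin d) (l r up dn : Fin D) => A x s l r dn up, hD, ?_, ?_⟩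
  · rw [hcon]
    intro h0
    rw [h0] at hlt
    simp [Pool.Agent.TH235.PP.ip, Pool.Agent.TH235.PP.normSq] at hlt
  · rw [hcon]
    exact hlt.le

/-- **Local approximation from the energy of the Gibbs state on one torus.** -/
theorem point_thermal (hd : 2 ≤ d) (R : Finset (ℤ × ℤ)) {x : (R → Fin d) → (R → Fin d) → ℝ}
    {ρ : Matrix (R → Fin d) (R → Fin d) ℂ} (hρ : ρ.IsHermitian) (hQ : QB R x ρ) :
    ∃ C : ℝ, 1 ≤ C ∧ ∀ ε : ℝ, 0 < ε → ε ≤ 1 → ∀ (m : ℕ) [NeZero m], C / ε ^ 2 ≤ m →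
      ∀ (hH : (ham R (herm x) m).IsHermitian) (β : ℝ), 0 ≤ β →
      ∀ E : ℝ, IsLeast' (ham R (herm x) m) E → gibbs hH β ≤ E + (m : ℝ) ^ 2 * (ε ^ 2 / C) →
      ∃ (D : ℕ) (A : Tensor d D), (D : ℝ) ≤ Real.exp (C * (β + Real.log m)) ∧
        ∀ (L : ℕ) [NeZero L], C * (m / ε ^ 2) ^ 2 ≤ L → contract A L ≠ 0 ∧
          ∀ φ : (Site L → Fin d) → ℂ, TIGround (ham R (herm x) L) φ →
            traceNorm (redState R φ - redState R (contract A L)) ≤ ε := by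
  obtain ⟨C₀, hC₀, hcr⟩ := point_crit hd R hρ hQ
  obtain ⟨C₁, hC₁, hnet⟩ := thermal_net hd R (herm x)
  obtain ⟨C, hC⟩ : ∃ C : ℝ, C = 2 * C₀ + 4 * C₁ + 6 + 2 * rad R := ⟨_, rfl⟩
  have q6 : (0 : ℝ) ≤ rad R := Nat.cast_nonneg _
  have hCa : 2 * C₀ ≤ C := by rw [hC]; linarith
  have hCb : 4 * C₁ + 5 ≤ C := by rw [hC]; linarith
  have hCc : 2 * (rad R : ℝ) + 2 ≤ C := by rw [hC]; linarith
  have hC1 : 1 ≤ C := by linarith
  clear hC
  have hCpos : 0 < C := by linarith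
  have hC₀pos : 0 < C₀ := by linarith
  refine ⟨C, hC1, ?_⟩
  intro ε hε hε1 m _ hm hH β hβ E hE hg
  have hε2 : 0 < ε ^ 2 := by positivity
  have hε21 : ε ^ 2 ≤ 1 := pow_le_one₀ hε.le hε1
  have hm0 : (0 : ℝ) < m := by exact_mod_cast Nat.pos_of_ne_zero (NeZero.ne m)
  have hm1 : (1 : ℝ) ≤ m := by exact_mod_cast Nat.one_le_iff_ne_zero.2 (NeZero.ne m)
  have hCm : C ≤ m := by
    refine le_trans ?_ hm
    rw [le_div_iff₀ hε2]
    exact mul_le_of_le_one_right hCpos.le hε21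
  have hmR : 2 * rad R + 2 ≤ m := by
    have : ((2 * rad R + 2 : ℕ) : ℝ) ≤ m := by push_cast; exact hCc.trans hCm
    exact_mod_cast this
  have hm0C : C₀ / ε ^ 2 ≤ m :=
    (div_le_div_of_nonneg_right (by linarith) hε2.le).trans hm
  obtain ⟨f, T, hf, hT, hTE⟩ := hnet m (by omega) (by omega) hH β hβ
  have hPn : 0 < normSq (contractN T) := normSq_pos_of_ne hT
  have hmε : C ≤ m * ε ^ 2 := by rwa [div_le_iff₀ hε2] at hm
  have hone : 1 ≤ (m : ℝ) ^ 2 * (ε ^ 2 / C) := by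
    have h1 : (m : ℝ) ^ 2 * (ε ^ 2 / C) = m * (m * ε ^ 2 / C) := by ring
    rw [h1]
    have h2 : 1 ≤ m * ε ^ 2 / C := by rw [le_div_iff₀ hCpos]; linarith
    exact one_le_mul_of_one_le_of_one_le hm1 h2
  have htwo : (m : ℝ) ^ 2 * (ε ^ 2 / C) + (m : ℝ) ^ 2 * (ε ^ 2 / C) ≤
      (m : ℝ) ^ 2 * (ε ^ 2 / C₀) := by
    have h1 : (m : ℝ) ^ 2 * (ε ^ 2 / C) + (m : ℝ) ^ 2 * (ε ^ 2 / C) =
        (m : ℝ) ^ 2 * (2 * ε ^ 2 / C) := by ring
    rw [h1]
    apply mul_le_mul_of_nonneg_left _ (by positivity)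
    rw [div_le_div_iff₀ hCpos hC₀pos]
    nlinarith
  obtain ⟨D, A, hD, hA⟩ := hcr ε hε hε1 m hm0C f T hT E hE (by
    refine hTE.trans (mul_le_mul_of_nonneg_right ?_ hPn.le)
    linarith)
  have hsq0 : 0 ≤ ((m : ℝ) / ε ^ 2) ^ 2 := by positivity
  refine ⟨D, A, hD.trans ?_, fun L _ hL => hA L (le_trans ?_ hL)⟩
  · have hl : 0 ≤ Real.log m := Real.log_nonneg hm1
    have hexp : (m : ℝ) = Real.exp (Real.log m) := (Real.exp_log hm0).symm
    have h1 : (m : ℝ) / ε ^ 2 ≤ m ^ 2 := by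
      rw [div_le_iff₀ hε2]
      have : (1 : ℝ) ≤ m * ε ^ 2 := by linarith
      nlinarith
    have h2 : C₀ * ((m : ℝ) / ε ^ 2) ^ 2 ≤ m * (m ^ 2) ^ 2 := by
      apply mul_le_mul (by linarith) (pow_le_pow_left₀ (by positivity) h1 2) hsq0 hm0.le
    have h3 : (m : ℝ) * ((m : ℝ) ^ 2) ^ 2 = Real.exp (5 * Real.log m) := by
      rw [← pow_mul, ← pow_succ', show 2 * 2 + 1 = 5 from rfl]
      conv_lhs => rw [hexp]
      rw [← Real.exp_nat_mul]
      norm_num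
    have h4 : (f : ℝ) ^ 4 ≤ Real.exp (4 * (C₁ * (β + Real.log m))) := by
      refine (pow_le_pow_left₀ (Nat.cast_nonneg _) hf 4).trans (le_of_eq ?_)
      rw [← Real.exp_nat_mul]
      norm_num
    refine (mul_le_mul (h2.trans h3.le) h4 (by positivity) (Real.exp_pos _).le).trans ?_
    rw [← Real.exp_add, Real.exp_le_exp]
    have h5 : (4 * C₁ + 5) * (β + Real.log m) ≤ C * (β + Real.log m) :=
      mul_le_mul_of_nonneg_right hCb (by linarith)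
    linarith
  · apply mul_le_mul_of_nonneg_right _ hsq0
    linarith

/-- The energy per site of the Gibbs states converges exponentially fast in the inverse temperature
to that of the ground states, on all large tori. -/
def FastCooling (R : Finset (ℤ × ℤ)) (h : Matrix (R → Fin d) (R → Fin d) ℂ) : Prop :=
  ∃ (c K : ℝ) (L₀ : ℕ), 0 < c ∧ ∀ (L : ℕ) [NeZero L], L₀ ≤ L →
    ∀ (hH : (ham R h L).IsHermitian) (β : ℝ), 0 ≤ β → ∀ E : ℝ, IsLeast' (ham R h L) E →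
      gibbs hH β ≤ E + K * (L : ℝ) ^ 2 * Real.exp (-(c * β))

theorem point_cooling (hd : 2 ≤ d) (R : Finset (ℤ × ℤ)) {x : (R → Fin d) → (R → Fin d) → ℝ}
    {ρ : Matrix (R → Fin d) (R → Fin d) ℂ} (hρ : ρ.IsHermitian) (hQ : QB R x ρ)
    (hcool : FastCooling R (herm x)) :
    ∃ a k : ℕ, ∀ ε : ℝ, 0 < ε → ε ≤ 1 → ∃ (D : ℕ) (A : Tensor d D),
      (D : ℝ) ≤ a * (1 / ε) ^ k ∧ ∀ (L : ℕ) [NeZero L], (a : ℝ) * (1 / ε) ^ k ≤ L →
        contract A L ≠ 0 ∧ ∀ φ : (Site L → Fin d) → ℂ, TIGround (ham R (herm x) L) φ →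
          traceNorm (redState R φ - redState R (contract A L)) ≤ ε := by
  obtain ⟨C, hC1, hth⟩ := point_thermal hd R hρ hQ
  obtain ⟨c, K, L₀, hc, hcool⟩ := hcool
  have hCpos : 0 < C := by linarith
  -- constants
  obtain ⟨K', hK'⟩ : ∃ K' : ℝ, K' = |K| + 1 := ⟨_, rfl⟩
  have hK'1 : 1 ≤ K' := by rw [hK']; linarith [abs_nonneg K]
  have hKK : K ≤ K' := by rw [hK']; linarith [le_abs_self K]
  have hKC : 1 ≤ K' * C := one_le_mul_of_one_le_of_one_le hK'1 hC1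
  obtain ⟨b, hb⟩ : ∃ b : ℝ, b = C + L₀ + 2 := ⟨_, rfl⟩
  have hL₀0 : (0 : ℝ) ≤ L₀ := Nat.cast_nonneg _
  have hb1 : 1 ≤ b := by rw [hb]; linarith
  have hlb : 0 ≤ Real.log b := Real.log_nonneg hb1
  have hlKC : 0 ≤ Real.log (K' * C) := Real.log_nonneg hKC
  obtain ⟨a₁, ha₁⟩ : ∃ a₁ : ℝ, a₁ = Real.exp (C * (Real.log (K' * C) / c + Real.log b)) := ⟨_, rfl⟩
  obtain ⟨k, hk⟩ := exists_nat_ge (C * (2 / c + 2))
  refine ⟨⌈a₁⌉₊ + ⌈C * b ^ 2⌉₊, k + 8, ?_⟩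
  intro ε hε hε1
  have hε2 : 0 < ε ^ 2 := by positivity
  obtain ⟨y, hy⟩ : ∃ y : ℝ, y = 1 / ε := ⟨_, rfl⟩
  have hy1 : 1 ≤ y := by rw [hy, le_div_iff₀ hε]; linarith
  have hy0 : 0 < y := by linarith
  have hly : 0 ≤ Real.log y := Real.log_nonneg hy1
  have hεy : ε ^ 2 = 1 / y ^ 2 := by rw [hy]; field_simp
  -- the torus
  obtain ⟨m, hm⟩ : ∃ m : ℕ, m = ⌈C * y ^ 2⌉₊ + L₀ + 1 := ⟨_, rfl⟩
  have hm0 : NeZero m := ⟨by omega⟩
  have hmpos : (0 : ℝ) < m := by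
    have : 0 < m := by omega
    exact_mod_cast this
  have hm1 : (1 : ℝ) ≤ m := by
    have : 1 ≤ m := by omega
    exact_mod_cast this
  have hysq : 1 ≤ y ^ 2 := one_le_pow₀ hy1
  have hmlow : C * y ^ 2 ≤ m := by
    rw [hm]; push_cast
    have h1 := Nat.le_ceil (C * y ^ 2)
    linarith
  have hmup : (m : ℝ) ≤ b * y ^ 2 := by
    rw [hm, hb]; push_cast
    have h1 := ceil_le' (C * y ^ 2) (by positivity)
    nlinarith
  have hmC : C / ε ^ 2 ≤ m := by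
    have h1 : C / ε ^ 2 = C * y ^ 2 := by rw [hεy]; field_simp
    rw [h1]; exact hmlow
  -- the inverse temperature
  obtain ⟨β, hβ⟩ : ∃ β : ℝ, β = Real.log (K' * C * y ^ 2) / c := ⟨_, rfl⟩
  have hKCy : 1 ≤ K' * C * y ^ 2 := one_le_mul_of_one_le_of_one_le hKC hysq
  have hβ0 : 0 ≤ β := by rw [hβ]; exact div_nonneg (Real.log_nonneg hKCy) hc.le
  have hexpβ : Real.exp (-(c * β)) = 1 / (K' * C * y ^ 2) := by
    rw [hβ, mul_div_cancel₀ _ hc.ne', Real.exp_neg, Real.exp_log (by linarith), one_div]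
  have hH := ham_herm (L := m) R (herm_isHermitian x)
  have : Nonempty (Site m → Fin d) := ⟨fun _ => ⟨0, by omega⟩⟩
  obtain ⟨E, hE⟩ := exists_least hH
  have hg := hcool m (by omega) hH β hβ0 E hE
  have hg2 : gibbs hH β ≤ E + (m : ℝ) ^ 2 * (ε ^ 2 / C) := by
    refine hg.trans ?_
    rw [hexpβ, hεy]
    have h1 : K * (m : ℝ) ^ 2 * (1 / (K' * C * y ^ 2)) ≤
        K' * (m : ℝ) ^ 2 * (1 / (K' * C * y ^ 2)) := by
      apply mul_le_mul_of_nonneg_right _ (by positivity)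
      exact mul_le_mul_of_nonneg_right hKK (by positivity)
    have h2 : K' * (m : ℝ) ^ 2 * (1 / (K' * C * y ^ 2)) = (m : ℝ) ^ 2 * (1 / y ^ 2 / C) := by
      have : 0 < K' := by linarith
      field_simp
    linarith
  obtain ⟨D, A, hD, hA⟩ := hth ε hε hε1 m hmC hH β hβ0 E hE hg2
  have hceil1 : a₁ ≤ (⌈a₁⌉₊ : ℕ) := Nat.le_ceil _
  have hceil2 : C * b ^ 2 ≤ (⌈C * b ^ 2⌉₊ : ℕ) := Nat.le_ceil _
  have ha₁0 : 0 ≤ a₁ := by rw [ha₁]; exact (Real.exp_pos _).le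
  have hcast : ((⌈a₁⌉₊ + ⌈C * b ^ 2⌉₊ : ℕ) : ℝ) = (⌈a₁⌉₊ : ℝ) + (⌈C * b ^ 2⌉₊ : ℝ) := by
    push_cast; rfl
  have hn1 : (0 : ℝ) ≤ (⌈a₁⌉₊ : ℝ) := Nat.cast_nonneg _
  have hn2 : (0 : ℝ) ≤ (⌈C * b ^ 2⌉₊ : ℝ) := Nat.cast_nonneg _
  refine ⟨D, A, hD.trans ?_, fun L _ hL => hA L (le_trans ?_ hL)⟩
  · have hlogm : Real.log m ≤ Real.log b + 2 * Real.log y := by
      have h1 := Real.log_le_log hmpos hmup
      rw [Real.log_mul (by linarith) (by positivity), Real.log_pow] at h1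
      push_cast at h1
      exact h1
    have hβ2 : β = Real.log (K' * C) / c + 2 / c * Real.log y := by
      rw [hβ, Real.log_mul (by positivity) (by positivity), Real.log_pow]
      push_cast
      ring
    have h1 : C * (β + Real.log m) ≤
        C * (Real.log (K' * C) / c + Real.log b) + k * Real.log y := by
      have h2 : β + Real.log m ≤
          (Real.log (K' * C) / c + Real.log b) + (2 / c + 2) * Real.log y := by
        rw [hβ2]; linarith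
      have h3 := mul_le_mul_of_nonneg_left h2 hCpos.le
      have h4 : C * (2 / c + 2) * Real.log y ≤ k * Real.log y :=
        mul_le_mul_of_nonneg_right hk hly
      linarith
    calc Real.exp (C * (β + Real.log m))
        ≤ Real.exp (C * (Real.log (K' * C) / c + Real.log b) + k * Real.log y) :=
          Real.exp_le_exp.2 h1
      _ = a₁ * y ^ k := by
          rw [Real.exp_add, ← ha₁, Real.exp_nat_mul, Real.exp_log hy0]
      _ ≤ ((⌈a₁⌉₊ + ⌈C * b ^ 2⌉₊ : ℕ) : ℝ) * y ^ (k + 8) := by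
          have h5 : y ^ k ≤ y ^ (k + 8) := pow_le_pow_right₀ hy1 (by omega)
          refine mul_le_mul ?_ h5 (by positivity) (Nat.cast_nonneg _)
          rw [hcast]; linarith
      _ = _ := by rw [hy]
  · have h1 : (m : ℝ) / ε ^ 2 ≤ b * y ^ 4 := by
      have h2 : (m : ℝ) / ε ^ 2 = m * y ^ 2 := by rw [hεy]; field_simp
      rw [h2]
      calc (m : ℝ) * y ^ 2 ≤ (b * y ^ 2) * y ^ 2 := mul_le_mul_of_nonneg_right hmup (by positivity)
        _ = b * y ^ 4 := by ring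
    calc C * ((m : ℝ) / ε ^ 2) ^ 2 ≤ C * (b * y ^ 4) ^ 2 :=
          mul_le_mul_of_nonneg_left (pow_le_pow_left₀ (by positivity) h1 2) hCpos.le
      _ = C * b ^ 2 * y ^ 8 := by ring
      _ ≤ ((⌈a₁⌉₊ + ⌈C * b ^ 2⌉₊ : ℕ) : ℝ) * y ^ (k + 8) := by
          have h5 : y ^ 8 ≤ y ^ (k + 8) := pow_le_pow_right₀ hy1 (by omega)
          refine mul_le_mul ?_ h5 (by positivity) (Nat.cast_nonneg _)
          rw [hcast]; linarith
      _ = _ := by rw [hy]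

end Pool.Agent.K3h59.TE
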