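import Mathlib
import Pool.Agent.K3h59.TE.H

set_option autoImplicit false
set_option linter.unusedSectionVars false
set_option maxHeartbeats 1000000

open scoped BigOperators Topology ComplexOrder
open Finset Filter MeasureTheory
open Pool.Agent.H4R2 Pool.Agent.Y665.PE Pool.Agent.K3h59.PE

/-!
# Almost every interaction, and every interaction with a stable gap
-/

namespace Pool.Agent.K3h59.TE

variable {d : ℕ}

/-- local approximation from the energy of the Gibbs state -/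
def ThermalApprox (R : Finset (ℤ × ℤ)) (h : Matrix (R → Fin d) (R → Fin d) ℂ) : Prop :=
  ∃ C : ℝ, 1 ≤ C ∧ ∀ ε : ℝ, 0 < ε → ε ≤ 1 → ∀ (m : ℕ) [NeZero m], C / ε ^ 2 ≤ m →
    ∀ (hH : (ham R h m).IsHermitian) (β : ℝ), 0 ≤ β →
    ∀ E : ℝ, IsLeast' (ham R h m) E → gibbs hH β ≤ E + (m : ℝ) ^ 2 * (ε ^ 2 / C) →
    ∃ (D : ℕ) (A : Tensor d D), (D : ℝ) ≤ Real.exp (C * (β + Real.log m)) ∧
      ∀ (L : ℕ) [NeZero L], C * (m / ε ^ 2) ^ 2 ≤ L → contract A L ≠ 0 ∧
        ∀ φ : (Site L → Fin d) → ℂ, TIGround (ham R h L) φ →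
          traceNorm (redState R φ - redState R (contract A L)) ≤ ε

/-- efficient local approximation -/
def EffLocal (R : Finset (ℤ × ℤ)) (h : Matrix (R → Fin d) (R → Fin d) ℂ) : Prop :=
  ∃ a k : ℕ, ∀ ε : ℝ, 0 < ε → ε ≤ 1 → ∃ (D : ℕ) (A : Tensor d D),
    (D : ℝ) ≤ a * (1 / ε) ^ k ∧ ∀ (L : ℕ) [NeZero L], (a : ℝ) * (1 / ε) ^ k ≤ L →
      contract A L ≠ 0 ∧ ∀ φ : (Site L → Fin d) → ℂ, TIGround (ham R h L) φ →
        traceNorm (redState R φ - redState R (contract A L)) ≤ ε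

theorem generic_thermal (hd : 2 ≤ d) (R : Finset (ℤ × ℤ)) :
    ∀ᵐ x : (R → Fin d) → (R → Fin d) → ℝ, ThermalApprox R (herm x) ∧
      (FastCooling R (herm x) → EffLocal R (herm x)) := by
  filter_upwards [generic_QB hd R] with x hx
  obtain ⟨ρ, _, hρ, _, hQ⟩ := hx
  exact ⟨point_thermal hd R hρ hQ, point_cooling hd R hρ hQ⟩

lemma enl_self (R : Finset (ℤ × ℤ)) (h : Matrix (R → Fin d) (R → Fin d) ℂ) :
    enl (Finset.Subset.refl R) h = h := by
  ext a b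
  unfold enl
  rw [if_pos (fun p hp => absurd p.2 hp)]

theorem stable_thermal (hd : 2 ≤ d) (R : Finset (ℤ × ℤ))
    {h : Matrix (R → Fin d) (R → Fin d) ℂ} (hh : h.IsHermitian)
    (ψ : ∀ (L : ℕ) [NeZero L], (Site L → Fin d) → ℂ) (hgap : GappedFamily R h ψ)
    (hst : StableGap R h R) :
    ThermalApprox R h ∧ (FastCooling R h → EffLocal R h) := by
  obtain ⟨x, ρ, hx, hρ, hQ⟩ := stable_point hd (Finset.Subset.refl R) hh ψ hgap hst
  rw [enl_self] at hx
  rw [← hx]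
  exact ⟨point_thermal hd R hρ hQ, point_cooling hd R hρ hQ⟩

end Pool.Agent.K3h59.TE
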